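import Mathlib

/-!
# Equidistribution of the number of prime factors along balanced factorizations of `n² + 1`

Definitions.  A pair `x = (w, w')` of integer vectors with `cross w w' = -J` and `dot w w' = B`
is a factorization `w * star w' = B + i J` in the Gaussian integers
(`star w * w' = dot + i cross`).
-/

set_option autoImplicit false

namespace Pool.Agent.Lib.MP391708.Eqd

open Finset

/-- integer vectors, i.e. Gaussian integers -/
abbrev V := ℤ × ℤ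

def cross (v w : V) : ℤ := v.1 * w.2 - v.2 * w.1
def dot (v w : V) : ℤ := v.1 * w.1 + v.2 * w.2
def nsq (v : V) : ℤ := v.1 ^ 2 + v.2 ^ 2

lemma nsq_mul (v w : V) : nsq v * nsq w = dot v w ^ 2 + cross v w ^ 2 := by
  simp only [nsq, dot, cross]; ring

lemma nsq_nonneg (v : V) : 0 ≤ nsq v := by simp only [nsq]; positivity

/-- vectors with coordinates of absolute value at most `M` -/
noncomputable def box (M : ℕ) : Finset V := Icc (-(M : ℤ)) M ×ˢ Icc (-(M : ℤ)) M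

/-- pairs with `cross = -J` in a box -/
noncomputable def pairs (J M : ℕ) : Finset (V × V) :=
  (box M ×ˢ box M).filter (fun x => cross x.1 x.2 = -(J : ℤ))

/-- all factorizations of `B + i J` -/
noncomputable def fib (J B : ℕ) : Finset (V × V) :=
  (pairs J (B ^ 2 + J ^ 2)).filter (fun x => dot x.1 x.2 = B)

/-- `|w| |w'|` -/
noncomputable def scal (x : V × V) : ℝ := Real.sqrt ((nsq x.1 : ℝ) * nsq x.2)

/-- `log (|w'| / |w|)` -/
noncomputable def shp (x : V × V) : ℝ := (1 / 2) * Real.log ((nsq x.2 : ℝ) / nsq x.1)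

/-- `w' ≡ w mod J` -/
def cond (J : ℕ) (x : V × V) : Prop := (J : ℤ) ∣ x.2.1 - x.1.1 ∧ (J : ℤ) ∣ x.2.2 - x.1.2

instance (J : ℕ) : DecidablePred (cond J) := fun x => by unfold cond; infer_instance

/-- number of prime factors with multiplicity -/
def Om (n : ℤ) : ℕ := ArithmeticFunction.cardFactors n.natAbs

lemma mem_box {M : ℕ} {v : V} : v ∈ box M ↔ |v.1| ≤ M ∧ |v.2| ≤ M := by
  simp only [box, mem_product, mem_Icc, abs_le]

lemma mem_pairs {J M : ℕ} {x : V × V} :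
    x ∈ pairs J M ↔ (x.1 ∈ box M ∧ x.2 ∈ box M) ∧ cross x.1 x.2 = -(J : ℤ) := by
  simp only [pairs, mem_filter, mem_product]

lemma pairs_mono {J M M' : ℕ} (h : M ≤ M') : pairs J M ⊆ pairs J M' := by
  intro x hx
  rw [mem_pairs, mem_box, mem_box] at hx ⊢
  have : (M : ℤ) ≤ M' := by exact_mod_cast h
  refine ⟨⟨⟨?_, ?_⟩, ?_, ?_⟩, hx.2⟩
  · exact hx.1.1.1.trans this
  · exact hx.1.1.2.trans this
  · exact hx.1.2.1.trans this
  · exact hx.1.2.2.trans this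

lemma nsq_pos_of_cross {J : ℕ} (hJ : 0 < J) {x : V × V} (h : cross x.1 x.2 = -(J : ℤ)) :
    0 < nsq x.1 ∧ 0 < nsq x.2 := by
  have hJ' : (0 : ℤ) < J := by exact_mod_cast hJ
  have h1 : 0 < nsq x.1 * nsq x.2 := by
    rw [nsq_mul, h]
    have : 0 < (-(J : ℤ)) ^ 2 := by
      rw [neg_sq]; positivity
    nlinarith [sq_nonneg (dot x.1 x.2)]
  have h2 := nsq_nonneg x.1
  have h3 := nsq_nonneg x.2
  constructor
  · rcases h2.lt_or_eq with h | h
    · exact h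
    · rw [← h] at h1; simp at h1
  · rcases h3.lt_or_eq with h | h
    · exact h
    · rw [← h] at h1; simp at h1

lemma abs_le_nsq (v : V) : |v.1| ≤ nsq v ∧ |v.2| ≤ nsq v := by
  have h : ∀ a : ℤ, |a| ≤ a ^ 2 := by
    intro a
    rw [← sq_abs]
    rcases (abs_nonneg a).lt_or_eq with h | h
    · nlinarith
    · rw [← h]; simp
  constructor
  · refine (h v.1).trans ?_
    simp only [nsq]; nlinarith [sq_nonneg v.2]
  · refine (h v.2).trans ?_
    simp only [nsq]; nlinarith [sq_nonneg v.1]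

/-- the box in the definition of `fib` is not a restriction -/
lemma mem_fib {J B : ℕ} (hJ : 0 < J) {x : V × V} :
    x ∈ fib J B ↔ cross x.1 x.2 = -(J : ℤ) ∧ dot x.1 x.2 = B := by
  simp only [fib, mem_filter, mem_pairs]
  constructor
  · rintro ⟨⟨_, h⟩, h'⟩; exact ⟨h, h'⟩
  · rintro ⟨h, h'⟩
    refine ⟨⟨?_, h⟩, h'⟩
    obtain ⟨h1, h2⟩ := nsq_pos_of_cross hJ h
    have h3 : nsq x.1 * nsq x.2 = (B : ℤ) ^ 2 + (J : ℤ) ^ 2 := by
      rw [nsq_mul, h, h']; ring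
    have h4 : nsq x.1 ≤ (B : ℤ) ^ 2 + (J : ℤ) ^ 2 := by nlinarith
    have h5 : nsq x.2 ≤ (B : ℤ) ^ 2 + (J : ℤ) ^ 2 := by nlinarith
    rw [mem_box, mem_box]
    push_cast
    exact ⟨⟨(abs_le_nsq x.1).1.trans h4, (abs_le_nsq x.1).2.trans h4⟩,
      (abs_le_nsq x.2).1.trans h5, (abs_le_nsq x.2).2.trans h5⟩

lemma scal_eq_of_mem_fib {J B : ℕ} (hJ : 0 < J) {x : V × V} (h : x ∈ fib J B) :
    scal x = Real.sqrt ((B : ℝ) ^ 2 + (J : ℝ) ^ 2) := by
  rw [mem_fib hJ] at h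
  have h3 : nsq x.1 * nsq x.2 = (B : ℤ) ^ 2 + (J : ℤ) ^ 2 := by
    rw [nsq_mul, h.1, h.2]; ring
  unfold scal
  congr 1
  exact_mod_cast h3

/-- `p - prime sets`: primes `p = 1 mod 4`, `P0 < p ≤ y` -/
def PP (P0 y : ℕ) : Finset ℕ := (Icc 1 y).filter (fun p => p.Prime ∧ p % 4 = 1 ∧ P0 < p)

/-- weight of the set `S ⊆ P` -/
noncomputable def Wt (P S : Finset ℕ) : ℝ :=
  (∏ p ∈ S, (2 / (p : ℝ))) * ∏ p ∈ P \ S, (1 - 1 / (p : ℝ)) ^ 4

/-- `Psi f ker S s = ∑_{A ⊆ S} f(A) ker (log N(A) - s)` -/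
noncomputable def Psi (f : ℕ → ℂ) (ker : ℝ → ℂ) (S : Finset ℕ) (s : ℝ) : ℂ :=
  ∑ A ∈ S.powerset, (∏ p ∈ A, f p) * ker ((∑ p ∈ A, Real.log p) - s)

/-- kernel with Fourier transform `m` -/
noncomputable def kerOf (m : ℝ → ℂ) (u : ℝ) : ℂ :=
  ∫ t : ℝ, m t * Complex.exp (Complex.I * t * u)

end Pool.Agent.Lib.MP391708.Eqd
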