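import Pool.Agent.Lib.MP_391708_nt.Eqd.Spec

/-!
# Module DIV: factorizations of `n + i` and divisors of `n² + 1`
-/

set_option autoImplicit false

namespace Pool.Agent.Lib.MP391708.Eqd

open Finset Filter Topology

/-- a Gaussian divisor of `n + i` of given norm -/
theorem exists_norm : ∀ D : ℕ, 0 < D → ∀ n : ℤ, (D : ℤ) ∣ n ^ 2 + 1 →
    ∃ a b : ℤ, a ^ 2 + b ^ 2 = D ∧ (D : ℤ) ∣ a - n * b := by
  intro D
  induction D using Nat.strong_induction_on with
  | _ D ih =>
    intro hD n hn
    rcases Nat.lt_or_ge 1 D with h1 | h1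
    · have hDp : (0 : ℤ) < D := by exact_mod_cast hD
      have hD2 : (2 : ℤ) ≤ D := by exact_mod_cast h1
      obtain ⟨n0, k, hk, hlo, hhi⟩ : ∃ n0 k : ℤ, n = n0 + D * k ∧ -(D : ℤ) ≤ 2 * n0 ∧
          2 * n0 ≤ D := by
        have e1 := Int.emod_add_mul_ediv n D
        have e2 := Int.emod_nonneg n hDp.ne'
        have e3 := Int.emod_lt_of_pos n hDp
        by_cases h : 2 * (n % D) ≤ D
        · exact ⟨n % D, n / D, by linarith, by linarith, h⟩
        · push Not at h
          exact ⟨n % D - D, n / D + 1, by linarith, by linarith, by linarith⟩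
      have hdv : (D : ℤ) ∣ n0 ^ 2 + 1 := by
        have : n0 ^ 2 + 1 = (n ^ 2 + 1) - D * (2 * n0 * k + D * k ^ 2) := by
          rw [hk]; ring
        rw [this]
        exact dvd_sub hn (dvd_mul_right _ _)
      obtain ⟨D', hD'⟩ := hdv
      have hsq : 4 * n0 ^ 2 ≤ (D : ℤ) ^ 2 := by nlinarith
      have hD'pos : 0 < D' := by nlinarith [sq_nonneg n0]
      have hD'lt : D' < D := by nlinarith
      obtain ⟨E, rfl⟩ := Int.eq_ofNat_of_zero_le hD'pos.le
      have hElt : E < D := by exact_mod_cast hD'lt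
      have hEpos : 0 < E := by exact_mod_cast hD'pos
      obtain ⟨a, b, hab, c, hc⟩ := ih E hElt hEpos n0 ⟨D, by linarith [hD', mul_comm (D : ℤ) (E : ℤ)]⟩
      -- cofactor
      have hE0 : (E : ℤ) ≠ 0 := by exact_mod_cast hEpos.ne'
      have hx : a * n0 + b = E * (c * n0 + b * D) := by
        have : a = E * c + n0 * b := by linarith
        have h3 : b * (n0 ^ 2 + 1) = b * ((D : ℤ) * E) := by rw [hD']
        rw [this]
        linarith [h3]
      refine ⟨c * n0 + b * D, c, ?_, ?_⟩
      · have h4 : (E : ℤ) ^ 2 * ((c * n0 + b * D) ^ 2 + c ^ 2) = (E : ℤ) ^ 2 * D := by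
          have h5 : (E * (c * n0 + b * D)) ^ 2 + ((E : ℤ) * c) ^ 2 = (a ^ 2 + b ^ 2) * (n0 ^ 2 + 1) := by
            rw [← hx, ← hc]; ring
          rw [hab, hD'] at h5
          linarith
        exact mul_left_cancel₀ (pow_ne_zero 2 hE0) h4
      · refine ⟨b - k * c, ?_⟩
        rw [hk]; ring
    · have : D = 1 := by omega
      subst this
      exact ⟨1, 0, by norm_num, by simp⟩

/-- the other congruence -/
theorem dvd_of_dvd {D n a b : ℤ} (hn : D ∣ n ^ 2 + 1) (h : D ∣ a - n * b) : D ∣ a * n + b := by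
  have : a * n + b = (a - n * b) * n + b * (n ^ 2 + 1) := by ring
  rw [this]
  exact dvd_add (Dvd.dvd.mul_right h n) (Dvd.dvd.mul_left hn b)

theorem fib_one_nsq {n : ℕ} {x : V × V} (h : x ∈ fib 1 n) :
    nsq x.1 * nsq x.2 = (n : ℤ) ^ 2 + 1 := by
  rw [mem_fib one_pos] at h
  rw [nsq_mul, h.1, h.2]
  push_cast
  ring

theorem fib_one_toNat {n : ℕ} {x : V × V} (h : x ∈ fib 1 n) :
    (nsq x.1).toNat * (nsq x.2).toNat = n ^ 2 + 1 := by
  have h1 := fib_one_nsq h
  have h2 := nsq_nonneg x.1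
  have h3 := nsq_nonneg x.2
  zify
  rw [Int.toNat_of_nonneg h2, Int.toNat_of_nonneg h3, h1]

theorem card_fib_norm (n d : ℕ) (hd : d ∈ (n ^ 2 + 1).divisors) :
    ((fib 1 n).filter (fun x => (nsq x.1).toNat = d)).card = 4 := by
  have hdp : 0 < d := Nat.pos_of_mem_divisors hd
  have hdd : (d : ℤ) ∣ (n : ℤ) ^ 2 + 1 := by
    have := Nat.dvd_of_mem_divisors hd
    exact_mod_cast this
  obtain ⟨a, b, hab, hdiv⟩ := exists_norm d hdp n hdd
  have hdiv2 := dvd_of_dvd hdd hdiv
  obtain ⟨p, hp⟩ := hdiv2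
  obtain ⟨q', hq'⟩ := hdiv
  obtain ⟨q, rfl⟩ : ∃ q, q' = -q := ⟨-q', by ring⟩
  have hdpz : (0 : ℤ) < d := by exact_mod_cast hdp
  have hset : (fib 1 n).filter (fun x => (nsq x.1).toNat = d) =
      {(((a, b), (p, q)) : V × V), ((-b, a), (-q, p)), ((-a, -b), (-p, -q)),
        ((b, -a), (q, -p))} := by
    ext ⟨⟨u, v⟩, ⟨s, t⟩⟩
    simp only [mem_filter, mem_fib one_pos, mem_insert, mem_singleton, Prod.mk.injEq, cross, dot,
      nsq]
    constructor
    · rintro ⟨⟨h1, h2⟩, h3⟩
      have h4 : u ^ 2 + v ^ 2 = d := by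
        have h5 : 0 ≤ u ^ 2 + v ^ 2 := by positivity
        rw [← Int.toNat_of_nonneg h5]
        exact_mod_cast h3
      -- `d * s = u * n + v`, `d * t = v * n - u`
      have h6 : (d : ℤ) * s = u * n + v := by
        rw [← h4, ← h2]
        push_cast at h1
        linear_combination (-v) * h1
      have h7 : (d : ℤ) * t = v * n - u := by
        rw [← h4, ← h2]
        push_cast at h1
        linear_combination u * h1
      -- dot and cross of `(a,b)` and `(u,v)` are divisible by `d`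
      have h8 : (d : ℤ) ∣ a * v - b * u := by
        refine ⟨-q * v + b * t, ?_⟩
        linear_combination v * hq' - b * h7
      have h9 : (d : ℤ) ∣ a * u + b * v := by
        refine ⟨-q * u + b * s, ?_⟩
        linear_combination u * hq' - b * h6
      obtain ⟨c1, hc1⟩ := h8
      obtain ⟨c2, hc2⟩ := h9
      have h10 : c1 ^ 2 + c2 ^ 2 = 1 := by
        have h11 : (d : ℤ) ^ 2 * (c1 ^ 2 + c2 ^ 2) = (d : ℤ) ^ 2 * 1 := by
          have : (d * c1) ^ 2 + (d * c2) ^ 2 = (a ^ 2 + b ^ 2) * (u ^ 2 + v ^ 2) := by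
            rw [← hc1, ← hc2]; ring
          rw [hab, h4] at this
          linarith
        exact mul_left_cancel₀ (pow_ne_zero 2 hdpz.ne') h11
      -- `d u = c2 d a - c1 d b`
      have h12 : u = c2 * a - c1 * b := by
        have : (d : ℤ) * u = d * (c2 * a - c1 * b) := by
          linear_combination (-u) * hab + a * hc2 - b * hc1
        exact mul_left_cancel₀ hdpz.ne' this
      have h13 : v = c2 * b + c1 * a := by
        have : (d : ℤ) * v = d * (c2 * b + c1 * a) := by
          linear_combination (-v) * hab + b * hc2 + a * hc1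
        exact mul_left_cancel₀ hdpz.ne' this
      have h14 : s = c2 * p - c1 * q := by
        have : (d : ℤ) * s = d * (c2 * p - c1 * q) := by
          rw [h6, h12, h13]
          linear_combination c2 * hp + c1 * hq'
        exact mul_left_cancel₀ hdpz.ne' this
      have h15 : t = c2 * q + c1 * p := by
        have : (d : ℤ) * t = d * (c2 * q + c1 * p) := by
          rw [h7, h12, h13]
          linear_combination c1 * hp - c2 * hq'
        exact mul_left_cancel₀ hdpz.ne' this
      have hc1b : -1 ≤ c1 ∧ c1 ≤ 1 := by constructor <;> nlinarith [sq_nonneg c2, sq_nonneg c1]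
      have hc2b : -1 ≤ c2 ∧ c2 ≤ 1 := by constructor <;> nlinarith [sq_nonneg c2, sq_nonneg c1]
      obtain ⟨l1, l2⟩ := hc1b
      obtain ⟨l3, l4⟩ := hc2b
      have e1 : c1 = -1 ∨ c1 = 0 ∨ c1 = 1 := by omega
      have e2 : c2 = -1 ∨ c2 = 0 ∨ c2 = 1 := by omega
      rcases e1 with rfl | rfl | rfl <;> rcases e2 with rfl | rfl | rfl <;>
        first
        | (exfalso; norm_num at h10; done)
        | (simp only [h12, h13, h14, h15]; norm_num)
    · have hneg : (n : ℤ) * b = a + d * q := by linarith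
      have k1 : a * q - b * p = -1 := by
        have : (d : ℤ) * (a * q - b * p) = d * (-1) := by
          linear_combination a * hq' + b * hp - hab
        exact mul_left_cancel₀ hdpz.ne' this
      have k2 : a * p + b * q = n := by
        have : (d : ℤ) * (a * p + b * q) = d * n := by
          linear_combination (-a) * hp + b * hq' + n * hab
        exact mul_left_cancel₀ hdpz.ne' this
      have k3 : (a ^ 2 + b ^ 2).toNat = d := by rw [hab]; simp
      have k4 : (b ^ 2 + a ^ 2).toNat = d := by rw [add_comm, hab]; simp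
      rintro (⟨⟨rfl, rfl⟩, rfl, rfl⟩ | ⟨⟨rfl, rfl⟩, rfl, rfl⟩ | ⟨⟨rfl, rfl⟩, rfl, rfl⟩ |
        ⟨⟨rfl, rfl⟩, rfl, rfl⟩)
      · exact ⟨⟨by push_cast; linarith, by linarith⟩, k3⟩
      · exact ⟨⟨by push_cast; linarith, by linarith⟩, by simpa using k4⟩
      · exact ⟨⟨by push_cast; linarith, by linarith⟩, by simpa using k3⟩
      · exact ⟨⟨by push_cast; linarith, by linarith⟩, by simpa using k4⟩
  rw [hset]
  have hne : a ≠ 0 ∨ b ≠ 0 := by
    by_contra hcon
    push Not at hcon
    rw [hcon.1, hcon.2] at hab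
    norm_num at hab
    omega
  rw [card_insert_of_notMem, card_insert_of_notMem, card_insert_of_notMem, card_singleton]
  · simp only [mem_singleton, Prod.mk.injEq]
    rintro ⟨⟨h1, h2⟩, _⟩
    rcases hne with h | h <;> omega
  · simp only [mem_insert, mem_singleton, Prod.mk.injEq]
    rintro (⟨⟨h1, h2⟩, _⟩ | ⟨⟨h1, h2⟩, _⟩) <;> rcases hne with h | h <;> omega
  · simp only [mem_insert, mem_singleton, Prod.mk.injEq]
    rintro (⟨⟨h1, h2⟩, _⟩ | ⟨⟨h1, h2⟩, _⟩ | ⟨⟨h1, h2⟩, _⟩) <;> rcases hne with h | h <;> omega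

theorem specDiv : SpecDiv := by
  intro n F
  have maps : ∀ x ∈ fib 1 n, (nsq x.1).toNat ∈ (n ^ 2 + 1).divisors := by
    intro x hx
    rw [Nat.mem_divisors]
    exact ⟨⟨_, (fib_one_toNat hx).symm⟩, by positivity⟩
  rw [← Finset.sum_fiberwise_of_maps_to maps, Finset.mul_sum]
  refine Finset.sum_congr rfl fun d hd => ?_
  have hdp : 0 < d := Nat.pos_of_mem_divisors hd
  have h1 : ∀ x ∈ (fib 1 n).filter (fun x => (nsq x.1).toNat = d),
      F (nsq x.1).toNat (nsq x.2).toNat = F d ((n ^ 2 + 1) / d) := by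
    intro x hx
    rw [mem_filter] at hx
    have h2 := fib_one_toNat hx.1
    rw [hx.2] at h2
    rw [hx.2, ← h2, Nat.mul_div_cancel_left _ hdp]
  rw [Finset.sum_congr rfl h1, Finset.sum_const, card_fib_norm n d hd, nsmul_eq_mul]
  norm_num

end Pool.Agent.Lib.MP391708.Eqd
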