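import Pool.Agent.Lib.MP_391708_nt.Eqd.Spec

/-!
# Module FIRST: first moment
-/

set_option autoImplicit false

namespace Pool.Agent.Lib.MP391708.Eqd

open Finset Filter Topology

theorem line_injOn {v : V} {c : ℤ} (hv : 0 < nsq v) (hc : c ≠ 0) :
    Set.InjOn (fun u : V => (c * dot v u) / nsq v) {u : V | cross v u = c} := by
  intro u hu u' hu' h
  change cross v u = c at hu
  change cross v u' = c at hu'
  have h1 : c * dot v u' = c * dot v u + (-cross u u') * nsq v := by
    nth_rewrite 1 [← hu]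
    rw [← hu']
    simp only [cross, dot, nsq]
    ring
  simp only at h
  rw [h1, Int.add_mul_ediv_right _ _ hv.ne'] at h
  have h2 : cross u u' = 0 := by linarith
  rw [h2] at h1
  have h3 : dot v u' = dot v u := by
    have : c * dot v u' = c * dot v u := by linarith
    exact mul_left_cancel₀ hc this
  have h4 : cross v u = cross v u' := by rw [hu, hu']
  simp only [dot, cross, nsq] at h3 h4 hv
  ext
  · refine mul_left_cancel₀ hv.ne' ?_
    linear_combination (-v.1) * h3 - v.2 * h4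
  · refine mul_left_cancel₀ hv.ne' ?_
    linear_combination (-v.2) * h3 + v.1 * h4

theorem card_line {v : V} {c : ℤ} {J : ℕ} (hv : 0 < nsq v) (hc : c ≠ 0) (hcJ : |c| = J)
    (M : ℕ) {R : ℝ} (hR : 0 ≤ R) :
    (((box M).filter (fun u => cross v u = c ∧ |(dot v u : ℝ)| ≤ R * nsq v)).card : ℝ) ≤
      2 * J * R + 2 := by
  set S := (box M).filter (fun u => cross v u = c ∧ |(dot v u : ℝ)| ≤ R * nsq v) with hS
  have hvr : (0 : ℝ) < nsq v := by exact_mod_cast hv
  have hinj : Set.InjOn (fun u : V => (c * dot v u) / nsq v) S := by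
    refine (line_injOn hv hc).mono ?_
    intro u hu
    exact (mem_filter.1 hu).2.1
  have hmaps : ∀ u ∈ S, (c * dot v u) / nsq v ∈ Icc (⌊-(J * R)⌋ : ℤ) ⌊(J * R : ℝ)⌋ := by
    intro u hu
    have h1 := (mem_filter.1 hu).2.2
    have h2 : |(c : ℝ) * dot v u| ≤ J * R * nsq v := by
      rw [abs_mul]
      have : |(c : ℝ)| = J := by exact_mod_cast congrArg (fun z : ℤ => (z : ℝ)) hcJ
      rw [this, mul_assoc]
      exact mul_le_mul_of_nonneg_left h1 (Nat.cast_nonneg _)
    rw [abs_le] at h2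
    have h3 : (((c * dot v u) / nsq v : ℤ) : ℝ) ≤ ((c : ℝ) * dot v u) / nsq v := by
      rw [le_div_iff₀ hvr]
      have := Int.ediv_mul_le (c * dot v u) hv.ne'
      exact_mod_cast this
    have h4 : ((c : ℝ) * dot v u) / nsq v < (((c * dot v u) / nsq v : ℤ) : ℝ) + 1 := by
      rw [div_lt_iff₀ hvr]
      have := Int.lt_ediv_add_one_mul_self (c * dot v u) hv
      exact_mod_cast this
    rw [mem_Icc]
    constructor
    · have h5 : -((J : ℝ) * R) ≤ ((c : ℝ) * dot v u) / nsq v := by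
        rw [le_div_iff₀ hvr]; linarith [h2.1]
      have h6 : (⌊-((J : ℝ) * R)⌋ : ℝ) ≤ -((J : ℝ) * R) := Int.floor_le _
      have h7 : ((⌊-((J : ℝ) * R)⌋ : ℤ) : ℝ) < (((c * dot v u) / nsq v : ℤ) : ℝ) + 1 := by linarith
      have h8 : ⌊-((J : ℝ) * R)⌋ < (c * dot v u) / nsq v + 1 := by exact_mod_cast h7
      linarith
    · rw [Int.le_floor]
      refine h3.trans ?_
      rw [div_le_iff₀ hvr]; linarith [h2.2]
  have hcard : S.card ≤ (Icc (⌊-(J * R)⌋ : ℤ) ⌊(J * R : ℝ)⌋).card :=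
    Finset.card_le_card_of_injOn _ (fun u hu => by exact_mod_cast hmaps u hu) hinj
  have hcard2 : (S.card : ℝ) ≤ ((Icc (⌊-(J * R)⌋ : ℤ) ⌊(J * R : ℝ)⌋).card : ℝ) := by
    exact_mod_cast hcard
  refine hcard2.trans ?_
  rw [Int.card_Icc]
  have hJR : (0 : ℝ) ≤ J * R := by positivity
  have hle : ⌊-((J : ℝ) * R)⌋ ≤ ⌊(J * R : ℝ)⌋ := Int.floor_le_floor (by linarith)
  have h9 : ((⌊(J * R : ℝ)⌋ + 1 - ⌊-((J : ℝ) * R)⌋).toNat : ℝ) =
      ((⌊(J * R : ℝ)⌋ + 1 - ⌊-((J : ℝ) * R)⌋ : ℤ) : ℝ) := by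
    have : ((⌊(J * R : ℝ)⌋ + 1 - ⌊-((J : ℝ) * R)⌋).toNat : ℤ) =
      ⌊(J * R : ℝ)⌋ + 1 - ⌊-((J : ℝ) * R)⌋ := Int.toNat_of_nonneg (by linarith)
    exact_mod_cast congrArg (fun z : ℤ => (z : ℝ)) this
  rw [h9]
  push_cast
  have h10 := Int.floor_le (J * R : ℝ)
  have h11 := Int.lt_floor_add_one (-(J * R : ℝ))
  linarith

theorem card_disc (M : ℕ) (R : ℝ) :
    (((box M).filter (fun v => 0 < nsq v ∧ (nsq v : ℝ) ≤ R)).card : ℝ) ≤ 9 * max R 0 := by
  by_cases hR : R < 1
  · have : (box M).filter (fun v => 0 < nsq v ∧ (nsq v : ℝ) ≤ R) = ∅ := by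
      rw [Finset.filter_eq_empty_iff]
      rintro v _ ⟨h1, h2⟩
      have : (1 : ℝ) ≤ nsq v := by exact_mod_cast h1
      linarith
    rw [this]
    simp
  · push Not at hR
    have h0 : 0 ≤ R := by linarith
    set r := Real.sqrt R with hr
    have hr1 : 1 ≤ r := by rw [hr]; exact Real.one_le_sqrt.2 hR
    have hrr : r * r = R := Real.mul_self_sqrt h0
    have hsub : (box M).filter (fun v => 0 < nsq v ∧ (nsq v : ℝ) ≤ R) ⊆
        Icc (-⌊r⌋) ⌊r⌋ ×ˢ Icc (-⌊r⌋) ⌊r⌋ := by
      intro v hv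
      have hv2 := (mem_filter.1 hv).2.2
      simp only [nsq] at hv2
      push_cast at hv2
      have hb : ∀ a : ℤ, (a : ℝ) ^ 2 ≤ R → -⌊r⌋ ≤ a ∧ a ≤ ⌊r⌋ := by
        intro a ha
        have h1 : |(a : ℝ)| ≤ r := by
          rw [hr]; exact Real.abs_le_sqrt ha
        rw [abs_le] at h1
        constructor
        · have : -a ≤ ⌊r⌋ := by rw [Int.le_floor]; push_cast; linarith [h1.1]
          linarith
        · rw [Int.le_floor]; exact h1.2
      rw [mem_product, mem_Icc, mem_Icc]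
      exact ⟨hb v.1 (by nlinarith [sq_nonneg (v.2 : ℝ)]), hb v.2 (by nlinarith [sq_nonneg (v.1 : ℝ)])⟩
    have hc := Finset.card_le_card hsub
    rw [card_product, Int.card_Icc] at hc
    have hf0 : 0 ≤ ⌊r⌋ := Int.floor_nonneg.2 (by linarith)
    have h2 : ((⌊r⌋ + 1 - -⌊r⌋).toNat : ℝ) ≤ 3 * r := by
      have h3 : ((⌊r⌋ + 1 - -⌊r⌋).toNat : ℤ) = ⌊r⌋ + 1 - -⌊r⌋ := Int.toNat_of_nonneg (by linarith)
      have h4 : ((⌊r⌋ + 1 - -⌊r⌋).toNat : ℝ) = ((⌊r⌋ + 1 - -⌊r⌋ : ℤ) : ℝ) := by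
        exact_mod_cast congrArg (fun z : ℤ => (z : ℝ)) h3
      rw [h4]
      push_cast
      have := Int.floor_le r
      linarith
    have h5 : (((box M).filter (fun v => 0 < nsq v ∧ (nsq v : ℝ) ≤ R)).card : ℝ) ≤
        ((⌊r⌋ + 1 - -⌊r⌋).toNat : ℝ) * ((⌊r⌋ + 1 - -⌊r⌋).toNat : ℝ) := by exact_mod_cast hc
    refine h5.trans ?_
    rw [max_eq_left h0, ← hrr]
    have h6 : (0 : ℝ) ≤ ((⌊r⌋ + 1 - -⌊r⌋).toNat : ℝ) := Nat.cast_nonneg _
    nlinarith

theorem scal_shp {x : V × V} (h1 : 0 < nsq x.1) (h2 : 0 < nsq x.2) :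
    scal x = nsq x.1 * Real.exp (shp x) ∧ scal x = nsq x.2 * Real.exp (-shp x) := by
  have h1' : (0 : ℝ) < nsq x.1 := by exact_mod_cast h1
  have h2' : (0 : ℝ) < nsq x.2 := by exact_mod_cast h2
  have e1 : Real.exp (shp x) = Real.sqrt ((nsq x.2 : ℝ) / nsq x.1) := by
    rw [shp, mul_comm, Real.exp_mul, Real.exp_log (div_pos h2' h1'), Real.sqrt_eq_rpow]
  have e2 : scal x = nsq x.1 * Real.exp (shp x) := by
    rw [e1, scal, Real.sqrt_div h2'.le, mul_comm (nsq x.1 : ℝ), Real.sqrt_mul h2'.le,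
      eq_comm, mul_div_assoc', div_eq_iff (Real.sqrt_pos.2 h1').ne']
    rw [mul_assoc, Real.mul_self_sqrt h1'.le]
    ring
  refine ⟨e2, ?_⟩
  rw [e2, Real.exp_neg, e1, Real.sqrt_div h2'.le]
  have p1 := Real.sqrt_pos.2 h1'
  have p2 := Real.sqrt_pos.2 h2'
  field_simp
  rw [Real.sq_sqrt h1'.le, Real.sq_sqrt h2'.le]
  

theorem abs_dot_le_scal (x : V × V) : |(dot x.1 x.2 : ℝ)| ≤ scal x := by
  rw [scal]
  refine Real.abs_le_sqrt ?_
  have := nsq_mul x.1 x.2
  have h2 : ((nsq x.1 : ℝ)) * nsq x.2 = (dot x.1 x.2 : ℝ) ^ 2 + (cross x.1 x.2 : ℝ) ^ 2 := by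
    exact_mod_cast this
  rw [h2]
  nlinarith [sq_nonneg (cross x.1 x.2 : ℝ)]

theorem specFirst : SpecFirst := by
  intro J hJ
  refine ⟨18 * Real.exp 1 * (J + 1), by positivity, fun X hX l M => ?_⟩
  set S := (pairs J M).filter (fun x => scal x ≤ X ∧ l ≤ shp x ∧ shp x ≤ l + 1) with hS
  have hJ0 : (0 : ℝ) ≤ J := Nat.cast_nonneg J
  have hJz : (J : ℤ) ≠ 0 := by exact_mod_cast hJ.ne'
  have hx : ∀ x ∈ S, x.1 ∈ box M ∧ x.2 ∈ box M ∧ cross x.1 x.2 = -(J : ℤ) ∧ 0 < nsq x.1 ∧
      0 < nsq x.2 ∧ scal x ≤ X ∧ l ≤ shp x ∧ shp x ≤ l + 1 := by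
    intro x hx
    rw [hS, mem_filter, mem_pairs] at hx
    obtain ⟨⟨⟨h1, h2⟩, h3⟩, h4⟩ := hx
    obtain ⟨h5, h6⟩ := nsq_pos_of_cross hJ h3
    exact ⟨h1, h2, h3, h5, h6, h4⟩
  rcases le_or_gt 0 l with hl | hl
  · -- base vector `x.1`
    set R := Real.exp (l + 1) with hR
    set Q := (box M).filter (fun v => 0 < nsq v ∧ (nsq v : ℝ) ≤ X * Real.exp (-l)) with hQ
    have hmaps : ∀ x ∈ S, x.1 ∈ Q := by
      intro x hxS
      obtain ⟨h1, h2, h3, h4, h5, h6, h7, h8⟩ := hx x hxS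
      rw [hQ, mem_filter]
      refine ⟨h1, h4, ?_⟩
      have h9 := (scal_shp h4 h5).1
      have h4' : (0 : ℝ) < nsq x.1 := by exact_mod_cast h4
      have h10 : (nsq x.1 : ℝ) * Real.exp l ≤ X := by
        refine le_trans ?_ h6
        rw [h9]
        exact mul_le_mul_of_nonneg_left (Real.exp_le_exp.2 h7) h4'.le
      rw [Real.exp_neg, ← div_eq_mul_inv, le_div_iff₀ (Real.exp_pos _)]
      exact h10
    rw [Finset.card_eq_sum_card_fiberwise (f := fun x : V × V => x.1) (t := Q)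
      (fun x hx => by exact_mod_cast hmaps x hx)]
    push_cast
    have hfib : ∀ v ∈ Q, ((S.filter (fun x => x.1 = v)).card : ℝ) ≤ 2 * J * R + 2 := by
      intro v hv
      have hv' := (mem_filter.1 hv).2.1
      refine le_trans ?_ (card_line (c := -(J : ℤ)) hv' (neg_ne_zero.2 hJz) (by simp) M
        (Real.exp_pos (l + 1)).le)
      have : (S.filter (fun x => x.1 = v)).card ≤ ((box M).filter (fun u =>
          cross v u = -(J : ℤ) ∧ |(dot v u : ℝ)| ≤ Real.exp (l + 1) * nsq v)).card := by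
        refine Finset.card_le_card_of_injOn (fun x => x.2) ?_ ?_
        · intro x hxm
          have hxm' := mem_filter.1 hxm
          obtain ⟨h1, h2, h3, h4, h5, h6, h7, h8⟩ := hx x hxm'.1
          have hxv := hxm'.2
          refine mem_coe.2 (mem_filter.2 ⟨h2, ?_, ?_⟩)
          · rw [← hxv]; exact h3
          · rw [← hxv]
            refine (abs_dot_le_scal x).trans ?_
            rw [(scal_shp h4 h5).1, mul_comm]
            have h4' : (0 : ℝ) < nsq x.1 := by exact_mod_cast h4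
            exact mul_le_mul_of_nonneg_right (Real.exp_le_exp.2 h8) h4'.le
        · intro x hxm y hym hxy
          have hxm' := mem_filter.1 hxm
          have hym' := mem_filter.1 hym
          exact Prod.ext (hxm'.2.trans hym'.2.symm) hxy
      exact_mod_cast this
    calc ∑ v ∈ Q, ((S.filter (fun x => x.1 = v)).card : ℝ) ≤ ∑ v ∈ Q, (2 * J * R + 2) :=
          Finset.sum_le_sum hfib
      _ = (Q.card : ℝ) * (2 * J * R + 2) := by rw [Finset.sum_const, nsmul_eq_mul]
      _ ≤ (9 * max (X * Real.exp (-l)) 0) * (2 * J * R + 2) := by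
          refine mul_le_mul_of_nonneg_right (card_disc M _) ?_
          have := Real.exp_pos (l + 1)
          positivity
      _ = 9 * X * (2 * J * (Real.exp (-l) * R) + 2 * Real.exp (-l)) := by
          rw [max_eq_left (by positivity)]; ring
      _ ≤ 9 * X * (2 * J * Real.exp 1 + 2 * Real.exp 1) := by
          have h1 : Real.exp (-l) * R = Real.exp 1 := by
            rw [hR, ← Real.exp_add]; ring_nf
          have h2 : Real.exp (-l) ≤ Real.exp 1 := Real.exp_le_exp.2 (by linarith)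
          rw [h1]
          have : 0 ≤ 9 * X := by linarith
          refine mul_le_mul_of_nonneg_left ?_ this
          linarith
      _ = _ := by ring
  · -- base vector `x.2`
    set R := Real.exp (-l) with hR
    set Q := (box M).filter (fun v => 0 < nsq v ∧ (nsq v : ℝ) ≤ X * Real.exp (l + 1)) with hQ
    have hmaps : ∀ x ∈ S, x.2 ∈ Q := by
      intro x hxS
      obtain ⟨h1, h2, h3, h4, h5, h6, h7, h8⟩ := hx x hxS
      rw [hQ, mem_filter]
      refine ⟨h2, h5, ?_⟩
      have h9 := (scal_shp h4 h5).2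
      have h5' : (0 : ℝ) < nsq x.2 := by exact_mod_cast h5
      have h10 : (nsq x.2 : ℝ) * Real.exp (-(l + 1)) ≤ X := by
        refine le_trans ?_ h6
        rw [h9]
        exact mul_le_mul_of_nonneg_left (Real.exp_le_exp.2 (by linarith)) h5'.le
      rw [Real.exp_neg, ← div_eq_mul_inv, div_le_iff₀ (Real.exp_pos _)] at h10
      exact h10
    rw [Finset.card_eq_sum_card_fiberwise (f := fun x : V × V => x.2) (t := Q)
      (fun x hx => by exact_mod_cast hmaps x hx)]
    push_cast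
    have hfib : ∀ v ∈ Q, ((S.filter (fun x => x.2 = v)).card : ℝ) ≤ 2 * J * R + 2 := by
      intro v hv
      have hv' := (mem_filter.1 hv).2.1
      refine le_trans ?_ (card_line (c := (J : ℤ)) hv' hJz (by simp) M
        (Real.exp_pos (-l)).le)
      have : (S.filter (fun x => x.2 = v)).card ≤ ((box M).filter (fun u =>
          cross v u = (J : ℤ) ∧ |(dot v u : ℝ)| ≤ Real.exp (-l) * nsq v)).card := by
        refine Finset.card_le_card_of_injOn (fun x => x.1) ?_ ?_
        · intro x hxm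
          have hxm' := mem_filter.1 hxm
          obtain ⟨h1, h2, h3, h4, h5, h6, h7, h8⟩ := hx x hxm'.1
          have hxv := hxm'.2
          refine mem_coe.2 (mem_filter.2 ⟨h1, ?_, ?_⟩)
          · rw [← hxv]
            simp only [cross] at h3 ⊢
            linarith
          · rw [← hxv]
            have hd : dot x.2 x.1 = dot x.1 x.2 := by simp only [dot]; ring
            rw [hd]
            refine (abs_dot_le_scal x).trans ?_
            rw [(scal_shp h4 h5).2, mul_comm]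
            have h5' : (0 : ℝ) < nsq x.2 := by exact_mod_cast h5
            exact mul_le_mul_of_nonneg_right (Real.exp_le_exp.2 (by linarith)) h5'.le
        · intro x hxm y hym hxy
          have hxm' := mem_filter.1 hxm
          have hym' := mem_filter.1 hym
          exact Prod.ext hxy (hxm'.2.trans hym'.2.symm)
      exact_mod_cast this
    calc ∑ v ∈ Q, ((S.filter (fun x => x.2 = v)).card : ℝ) ≤ ∑ v ∈ Q, (2 * J * R + 2) :=
          Finset.sum_le_sum hfib
      _ = (Q.card : ℝ) * (2 * J * R + 2) := by rw [Finset.sum_const, nsmul_eq_mul]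
      _ ≤ (9 * max (X * Real.exp (l + 1)) 0) * (2 * J * R + 2) := by
          refine mul_le_mul_of_nonneg_right (card_disc M _) ?_
          have := Real.exp_pos (-l)
          positivity
      _ = 9 * X * (2 * J * (Real.exp (l + 1) * R) + 2 * Real.exp (l + 1)) := by
          rw [max_eq_left (by positivity)]; ring
      _ ≤ 9 * X * (2 * J * Real.exp 1 + 2 * Real.exp 1) := by
          have h1 : Real.exp (l + 1) * R = Real.exp 1 := by
            rw [hR, ← Real.exp_add]; ring_nf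
          have h2 : Real.exp (l + 1) ≤ Real.exp 1 := Real.exp_le_exp.2 (by linarith)
          rw [h1]
          have : 0 ≤ 9 * X := by linarith
          refine mul_le_mul_of_nonneg_left ?_ this
          linarith
      _ = _ := by ring

end Pool.Agent.Lib.MP391708.Eqd
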