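import Pool.Agent.Lib.MP_391708_nt.Eqd.Spec

set_option autoImplicit false

namespace Pool.Agent.Lib.MP391708.Eqd

open Finset Filter Topology

namespace Loc

/-- coordinates `(a + ι b, a - ι b)` -/
def co {R : Type*} [CommRing R] (ι : R) (w : R × R) : R × R := (w.1 + ι * w.2, w.1 - ι * w.2)

lemma co_inj {R : Type*} [CommRing R] {ι : R} (hι : ι * ι = -1) (h2 : IsUnit (2 : R)) :
    Function.Injective (co ι) := by
  intro w w' h
  have h1 : w.1 + ι * w.2 = w'.1 + ι * w'.2 := congrArg Prod.fst h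
  have h3 : w.1 - ι * w.2 = w'.1 - ι * w'.2 := congrArg Prod.snd h
  have e1 : (2 : R) * w.1 = 2 * w'.1 := by linear_combination h1 + h3
  have e2 : (2 : R) * w.2 = 2 * w'.2 := by
    linear_combination (-ι) * h1 + ι * h3 + (2 * w.2 - 2 * w'.2) * hι
  exact Prod.ext (h2.mul_left_cancel e1) (h2.mul_left_cancel e2)

lemma co_mul {R : Type*} [CommRing R] {ι : R} (hι : ι * ι = -1) (w : R × R) :
    (co ι w).1 * (co ι w).2 = w.1 ^ 2 + w.2 ^ 2 := by
  simp only [co]; linear_combination (-w.2 ^ 2) * hι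

lemma co_cross {R : Type*} [CommRing R] {ι : R} (_hι : ι * ι = -1) (w w' : R × R) :
    (co ι w).1 * (co ι w').2 - (co ι w).2 * (co ι w').1 = -2 * ι * (w.1 * w'.2 - w.2 * w'.1) := by
  simp only [co]; ring

/-- residues at a prime outside `S` -/
lemma card_out {F : Type*} [Field F] [Fintype F] {ι : F} (hι : ι * ι = -1)
    (h2 : (2 : F) ≠ 0) (c : F) (hc : c ≠ 0) (Z : Finset ((F × F) × (F × F)))
    (hZ : ∀ z ∈ Z, z.1.1 ^ 2 + z.1.2 ^ 2 ≠ 0 ∧
      z.2.1 ^ 2 + z.2.2 ^ 2 ≠ 0 ∧ z.1.1 * z.2.2 - z.1.2 * z.2.1 = c) :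
    Z.card ≤ (Fintype.card F - 1) * (Fintype.card F - 1) * (Fintype.card F - 2) := by
  classical
  have hιne : ι ≠ 0 := by
    rintro rfl; simp at hι
  set c' : F := -2 * ι * c with hc'
  have hc'ne : c' ≠ 0 := by
    rw [hc']; exact mul_ne_zero (mul_ne_zero (neg_ne_zero.mpr h2) hιne) hc
  let f : (F × F) × (F × F) → (F × F) × F := fun z =>
    (((co ι z.1).1, (co ι z.1).2), (co ι z.1).1 * (co ι z.2).2)
  let T : Finset ((F × F) × F) :=
    (((univ : Finset F).erase 0) ×ˢ ((univ : Finset F).erase 0)) ×ˢ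
      (((univ : Finset F).erase 0).erase c')
  have hT : T.card = (Fintype.card F - 1) * (Fintype.card F - 1) * (Fintype.card F - 2) := by
    simp only [T, card_product]
    rw [card_erase_of_mem (mem_erase.mpr ⟨hc'ne, mem_univ _⟩), card_erase_of_mem (mem_univ _),
      card_univ]
    congr 1
  rw [← hT]
  refine card_le_card_of_injOn f ?_ ?_
  · intro z hz
    obtain ⟨h1, h3, h4⟩ := hZ z hz
    rw [← co_mul hι] at h1 h3
    have h5 := co_cross hι z.1 z.2
    rw [h4, ← hc'] at h5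
    have hx1 : (co ι z.1).1 ≠ 0 := left_ne_zero_of_mul h1
    have hx2 : (co ι z.1).2 ≠ 0 := right_ne_zero_of_mul h1
    have hy1 : (co ι z.2).1 ≠ 0 := left_ne_zero_of_mul h3
    have hy2 : (co ι z.2).2 ≠ 0 := right_ne_zero_of_mul h3
    simp only [T, f, coe_product, Set.mem_prod, mem_coe, mem_erase, mem_univ, and_true]
    refine ⟨⟨hx1, hx2⟩, ?_, mul_ne_zero hx1 hy2⟩
    intro h6
    rw [h6] at h5
    have : (co ι z.1).2 * (co ι z.2).1 = 0 := by linear_combination -h5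
    exact (mul_ne_zero hx2 hy1) this
  · intro z hz z' hz' hzz
    obtain ⟨h1, h3, h4⟩ := hZ z hz
    obtain ⟨h1', h3', h4'⟩ := hZ z' hz'
    rw [← co_mul hι] at h1 h3 h1' h3'
    have h5 := co_cross hι z.1 z.2
    have h5' := co_cross hι z'.1 z'.2
    rw [h4, ← hc'] at h5
    rw [h4', ← hc'] at h5'
    have e1 : (co ι z.1).1 = (co ι z'.1).1 := congrArg (fun t => t.1.1) hzz
    have e2 : (co ι z.1).2 = (co ι z'.1).2 := congrArg (fun t => t.1.2) hzz
    have e3 : (co ι z.1).1 * (co ι z.2).2 = (co ι z'.1).1 * (co ι z'.2).2 :=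
      congrArg (fun t => t.2) hzz
    have hx1 : (co ι z.1).1 ≠ 0 := left_ne_zero_of_mul h1
    have hx2 : (co ι z.1).2 ≠ 0 := right_ne_zero_of_mul h1
    have e4 : (co ι z.2).2 = (co ι z'.2).2 := by
      rw [← e1] at e3; exact mul_left_cancel₀ hx1 e3
    have e5 : (co ι z.2).1 = (co ι z'.2).1 := by
      rw [← e1, ← e2, ← e4] at h5'
      have : (co ι z.1).2 * (co ι z.2).1 = (co ι z.1).2 * (co ι z'.2).1 := by
        linear_combination h5' - h5
      exact mul_left_cancel₀ hx2 this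
    have hu : IsUnit (2 : F) := isUnit_iff_ne_zero.mpr h2
    exact Prod.ext (co_inj hι hu (Prod.ext e1 e2)) (co_inj hι hu (Prod.ext e5 e4))

/-- residues at a prime in `S` -/
lemma card_in {F : Type*} [Field F] [Fintype F] {ι : F} (hι : ι * ι = -1)
    (h2 : (2 : F) ≠ 0) (c : F) (hc : c ≠ 0) (Z : Finset ((F × F) × (F × F)))
    (hZ : ∀ z ∈ Z, z.2.1 ^ 2 + z.2.2 ^ 2 = 0 ∧ z.1.1 * z.2.2 - z.1.2 * z.2.1 = c) :
    Z.card ≤ 2 * (Fintype.card F * Fintype.card F) := by
  classical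
  have hιne : ι ≠ 0 := by
    rintro rfl; simp at hι
  set c' : F := -2 * ι * c with hc'
  have hc'ne : c' ≠ 0 := by
    rw [hc']; exact mul_ne_zero (mul_ne_zero (neg_ne_zero.mpr h2) hιne) hc
  let f : (F × F) × (F × F) → Bool × (F × F) := fun z =>
    if (co ι z.2).1 = 0 then (true, ((co ι z.2).2, (co ι z.1).2))
      else (false, ((co ι z.2).1, (co ι z.1).1))
  have hT : (univ : Finset (Bool × (F × F))).card = 2 * (Fintype.card F * Fintype.card F) := by
    rw [card_univ]; simp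
  rw [← hT]
  refine card_le_card_of_injOn f (fun _ _ => mem_coe.mpr (mem_univ _)) ?_
  intro z hz z' hz' hzz
  obtain ⟨h3, h4⟩ := hZ z hz
  obtain ⟨h3', h4'⟩ := hZ z' hz'
  rw [← co_mul hι] at h3 h3'
  have h5 := co_cross hι z.1 z.2
  have h5' := co_cross hι z'.1 z'.2
  rw [h4, ← hc'] at h5
  rw [h4', ← hc'] at h5'
  have hu : IsUnit (2 : F) := isUnit_iff_ne_zero.mpr h2
  by_cases hy : (co ι z.2).1 = 0
  · by_cases hy' : (co ι z'.2).1 = 0
    · simp only [f, hy, hy', if_true, Prod.mk.injEq, true_and] at hzz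
      obtain ⟨e1, e2⟩ := hzz
      rw [hy, mul_zero, sub_zero] at h5
      rw [hy', mul_zero, sub_zero, ← e1] at h5'
      have hne : (co ι z.2).2 ≠ 0 := by
        intro h; rw [h, mul_zero] at h5; exact hc'ne h5.symm
      have e3 : (co ι z.1).1 = (co ι z'.1).1 := mul_right_cancel₀ hne (h5.trans h5'.symm)
      exact Prod.ext (co_inj hι hu (Prod.ext e3 e2)) (co_inj hι hu (Prod.ext (hy.trans hy'.symm) e1))
    · simp [f, hy, hy'] at hzz
  · by_cases hy' : (co ι z'.2).1 = 0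
    · simp [f, hy, hy'] at hzz
    · simp only [f, hy, hy', if_false, Prod.mk.injEq, true_and] at hzz
      obtain ⟨e1, e2⟩ := hzz
      have g : (co ι z.2).2 = 0 := (mul_eq_zero.mp h3).resolve_left hy
      have g' : (co ι z'.2).2 = 0 := (mul_eq_zero.mp h3').resolve_left hy'
      rw [g, mul_zero, zero_sub] at h5
      rw [g', mul_zero, zero_sub, ← e1] at h5'
      have e3 : (co ι z.1).2 = (co ι z'.1).2 := by
        have : (co ι z.1).2 * (co ι z.2).1 = (co ι z'.1).2 * (co ι z.2).1 := by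
          linear_combination h5' - h5
        exact mul_right_cancel₀ hy this
      exact Prod.ext (co_inj hι hu (Prod.ext e2 e3)) (co_inj hι hu (Prod.ext e1 (g.trans g'.symm)))

lemma exists_iota (p : ℕ) [Fact p.Prime] (hp : p % 4 = 1) : ∃ ι : ZMod p, ι * ι = -1 := by
  have h : IsSquare (-1 : ZMod p) := ZMod.exists_sq_eq_neg_one_iff.mpr (by omega)
  obtain ⟨r, hr⟩ := h
  exact ⟨r, hr.symm⟩

/-- condition at `p` -/
def cP (J : ℕ) (S : Finset ℕ) (p : ℕ) (z : (ZMod p × ZMod p) × (ZMod p × ZMod p)) : Prop :=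
  z.1.1 ^ 2 + z.1.2 ^ 2 ≠ 0 ∧ (z.2.1 ^ 2 + z.2.2 ^ 2 = 0 ↔ p ∈ S) ∧
    z.1.1 * z.2.2 - z.1.2 * z.2.1 = -(J : ZMod p)

/-- weight at `p` -/
noncomputable def wP (S : Finset ℕ) (p : ℕ) : ℝ :=
  if p ∈ S then 2 / (p : ℝ) else (1 - 1 / (p : ℝ)) ^ 4

lemma wP_nonneg (S : Finset ℕ) (p : ℕ) : 0 ≤ wP S p := by
  unfold wP; split_ifs <;> positivity

lemma card_cP (J : ℕ) (S : Finset ℕ) (p : ℕ) (hp : p.Prime) (hp4 : p % 4 = 1) (hJ : ¬ p ∣ J)
    (Z : Finset ((ZMod p × ZMod p) × (ZMod p × ZMod p))) (hZ : ∀ z ∈ Z, cP J S p z) :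
    (Z.card : ℝ) ≤ (p : ℝ) ^ 3 * wP S p := by
  have : Fact p.Prime := ⟨hp⟩
  obtain ⟨ι, hι⟩ := exists_iota p hp4
  have h2 : (2 : ZMod p) ≠ 0 := by
    have : ((2 : ℕ) : ZMod p) ≠ 0 := by
      rw [Ne, ZMod.natCast_eq_zero_iff]
      intro h
      have := Nat.le_of_dvd (by norm_num) h
      have := hp.two_le
      interval_cases p
      omega
    exact_mod_cast this
  have hc : (-(J : ZMod p)) ≠ 0 := by
    rw [neg_ne_zero, Ne, ZMod.natCast_eq_zero_iff]; exact hJ
  have hp0 : (0 : ℝ) < p := by exact_mod_cast hp.pos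
  have hp5 : 5 ≤ p := by
    have := hp.two_le
    by_contra h
    interval_cases p <;> omega
  unfold wP
  split_ifs with hS
  · have h1 : Z.card ≤ 2 * (p * p) :=
      (card_in hι h2 _ hc Z (fun z hz => ⟨(hZ z hz).2.1.mpr hS, (hZ z hz).2.2⟩)).trans
        (by rw [ZMod.card])
    have h1' : (Z.card : ℝ) ≤ 2 * (p * p) := by exact_mod_cast h1
    refine h1'.trans (le_of_eq ?_)
    field_simp
  · have h1 : Z.card ≤ (p - 1) * (p - 1) * (p - 2) :=
      (card_out hι h2 _ hc Z (fun z hz => ⟨(hZ z hz).1, fun h => hS ((hZ z hz).2.1.mp h),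
        (hZ z hz).2.2⟩)).trans (by rw [ZMod.card])
    have h1' : (Z.card : ℝ) ≤ ((p : ℝ) - 1) * ((p : ℝ) - 1) * ((p : ℝ) - 2) := by
      have e1 : (((p - 1 : ℕ)) : ℝ) = (p : ℝ) - 1 := by
        rw [Nat.cast_sub (by omega)]; simp
      have e2 : (((p - 2 : ℕ)) : ℝ) = (p : ℝ) - 2 := by
        rw [Nat.cast_sub (by omega)]; simp
      rw [← e1, ← e2]; exact_mod_cast h1
    refine h1'.trans ?_
    have e : (p : ℝ) ^ 3 * (1 - 1 / (p : ℝ)) ^ 4 = ((p : ℝ) - 1) ^ 4 / p := by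
      field_simp
    rw [e, le_div_iff₀ hp0]
    nlinarith [sq_nonneg ((p : ℝ) - 1), sq_nonneg (((p : ℝ) - 1))]

/-- weight of a set of primes as a product over `P` -/
lemma prod_wP (P S : Finset ℕ) (hS : S ⊆ P) : ∏ i : P, wP S i = Wt P S := by
  rw [Finset.prod_coe_sort P (fun i => wP S i)]
  unfold Wt
  rw [← Finset.prod_sdiff hS, mul_comm]
  congr 1
  · exact Finset.prod_congr rfl (fun p hp => by simp [wP, hp])
  · exact Finset.prod_congr rfl (fun p hp => by simp [wP, (mem_sdiff.mp hp).2])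

/-- the modulus -/
def md (P : Finset ℕ) : ℕ := ∏ i : P, (i : ℕ)

/-- reduction of residues -/
noncomputable def red (P : Finset ℕ) (hP : Pairwise (fun i j : P => Nat.Coprime (i : ℕ) (j : ℕ)))
    (z : (ZMod (md P) × ZMod (md P)) × (ZMod (md P) × ZMod (md P))) (i : P) :
    (ZMod (i : ℕ) × ZMod (i : ℕ)) × (ZMod (i : ℕ) × ZMod (i : ℕ)) :=
  let e := ZMod.prodEquivPi (fun i : P => (i : ℕ)) hP
  ((e z.1.1 i, e z.1.2 i), (e z.2.1 i, e z.2.2 i))

lemma red_inj (P : Finset ℕ) (hP : Pairwise (fun i j : P => Nat.Coprime (i : ℕ) (j : ℕ))) :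
    Function.Injective (red P hP) := by
  intro z z' h
  have key : ∀ i, red P hP z i = red P hP z' i := fun i => congrFun h i
  have e : Function.Injective (ZMod.prodEquivPi (fun i : P => (i : ℕ)) hP) :=
    (ZMod.prodEquivPi (fun i : P => (i : ℕ)) hP).injective
  refine Prod.ext (Prod.ext ?_ ?_) (Prod.ext ?_ ?_)
  · exact e (funext fun i => congrArg (fun t => t.1.1) (key i))
  · exact e (funext fun i => congrArg (fun t => t.1.2) (key i))
  · exact e (funext fun i => congrArg (fun t => t.2.1) (key i))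
  · exact e (funext fun i => congrArg (fun t => t.2.2) (key i))

lemma card_red (J : ℕ) (P S : Finset ℕ) (hS : S ⊆ P)
    (hPp : ∀ p ∈ P, p.Prime ∧ p % 4 = 1 ∧ ¬ p ∣ J)
    (hP : Pairwise (fun i j : P => Nat.Coprime (i : ℕ) (j : ℕ)))
    (R : Finset ((ZMod (md P) × ZMod (md P)) × (ZMod (md P) × ZMod (md P))))
    (hR : ∀ z ∈ R, ∀ i : P, cP J S i (red P hP z i)) :
    (R.card : ℝ) ≤ ((md P : ℕ) : ℝ) ^ 3 * Wt P S := by
  classical
  haveI : ∀ i : P, Fintype (ZMod (i : ℕ)) := fun i =>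
    have : NeZero (i : ℕ) := ⟨(hPp i i.2).1.ne_zero⟩
    ZMod.fintype _
  let T : (i : P) → Finset ((ZMod (i : ℕ) × ZMod (i : ℕ)) × (ZMod (i : ℕ) × ZMod (i : ℕ))) :=
    fun i => univ.filter (fun z => cP J S i z)
  have h1 : R.card ≤ (Fintype.piFinset T).card := by
    refine card_le_card_of_injOn (red P hP) ?_ ((red_inj P hP).injOn)
    intro z hz
    rw [mem_coe, Fintype.mem_piFinset]
    intro i
    simp only [T, mem_filter, mem_univ, true_and]
    exact hR z hz i
  rw [Fintype.card_piFinset] at h1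
  have h2 : (R.card : ℝ) ≤ ∏ i : P, ((T i).card : ℝ) := by exact_mod_cast h1
  refine h2.trans ?_
  rw [← prod_wP P S hS, md, Nat.cast_prod, ← Finset.prod_pow, ← Finset.prod_mul_distrib]
  refine Finset.prod_le_prod (fun i _ => by positivity) (fun i _ => ?_)
  obtain ⟨ha, hb, hc⟩ := hPp i i.2
  refine card_cP J S i ha hb hc (T i) (fun z hz => ?_)
  simp only [T, mem_filter, mem_univ, true_and] at hz
  exact hz

/-! ### modulus `p²` -/

lemma exists_iota_sq (p : ℕ) (hp : p.Prime) (hp4 : p % 4 = 1) :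
    ∃ ι : ZMod (p ^ 2), ι * ι = -1 := by
  have : Fact p.Prime := ⟨hp⟩
  obtain ⟨a, b, hab⟩ := Nat.Prime.sq_add_sq (p := p) (by omega)
  have hcop : Nat.Coprime (2 * a * b) (p ^ 2) := by
    apply Nat.Coprime.pow_right
    rw [Nat.coprime_comm, hp.coprime_iff_not_dvd]
    intro h
    have ha0 : a ≠ 0 := by
      rintro rfl
      have : b ^ 2 = p := by simpa using hab
      exact (Nat.Prime.prime hp).not_isSquare ⟨b, by rw [← this]; ring⟩
    have hb0 : b ≠ 0 := by
      rintro rfl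
      have : a ^ 2 = p := by simpa using hab
      exact (Nat.Prime.prime hp).not_isSquare ⟨a, by rw [← this]; ring⟩
    have ha : a < p := by nlinarith [Nat.pos_of_ne_zero ha0, Nat.pos_of_ne_zero hb0]
    have hb : b < p := by nlinarith [Nat.pos_of_ne_zero ha0, Nat.pos_of_ne_zero hb0]
    rcases (Nat.Prime.dvd_mul hp).mp h with h | h
    · rcases (Nat.Prime.dvd_mul hp).mp h with h | h
      · have := Nat.le_of_dvd (by norm_num) h
        have := hp.two_le
        interval_cases p; omega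
      · have := Nat.le_of_dvd (Nat.pos_of_ne_zero ha0) h; omega
    · have := Nat.le_of_dvd (Nat.pos_of_ne_zero hb0) h; omega
  have hu : IsUnit ((2 * a * b : ℕ) : ZMod (p ^ 2)) := by
    rw [ZMod.isUnit_iff_coprime]; exact hcop
  obtain ⟨u, hu⟩ := hu
  have h0 : ((a : ZMod (p ^ 2)) ^ 2 + (b : ZMod (p ^ 2)) ^ 2) ^ 2 = 0 := by
    have : (((a ^ 2 + b ^ 2) ^ 2 : ℕ) : ZMod (p ^ 2)) = 0 := by
      rw [hab]; exact ZMod.natCast_self _
    push_cast at this
    exact this
  have hu2 : (u : ZMod (p ^ 2)) = 2 * a * b := by rw [hu]; push_cast; ring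
  refine ⟨((a : ZMod (p ^ 2)) ^ 2 - (b : ZMod (p ^ 2)) ^ 2) * ((u⁻¹ : (ZMod (p ^ 2))ˣ) : ZMod (p ^ 2)), ?_⟩
  have hui : (u : ZMod (p ^ 2)) * ((u⁻¹ : (ZMod (p ^ 2))ˣ) : ZMod (p ^ 2)) = 1 := u.mul_inv
  have h1 : ((a : ZMod (p ^ 2)) ^ 2 - (b : ZMod (p ^ 2)) ^ 2) ^ 2 = -(u : ZMod (p ^ 2)) ^ 2 := by
    rw [hu2]; linear_combination h0
  set v : ZMod (p ^ 2) := ((u⁻¹ : (ZMod (p ^ 2))ˣ) : ZMod (p ^ 2)) with hv
  have h2 : (u : ZMod (p ^ 2)) ^ 2 * v ^ 2 = 1 := by rw [← mul_pow, hui, one_pow]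
  linear_combination v ^ 2 * h1 - h2

section PSq

variable (p : ℕ) (hp : p.Prime)
include hp

lemma unit_or (z : ZMod (p ^ 2)) : IsUnit z ∨ ∃ k : ℕ, k < p ∧ z = ((p * k : ℕ) : ZMod (p ^ 2)) := by
  have : NeZero (p ^ 2) := ⟨(pow_pos hp.pos 2).ne'⟩
  by_cases h : p ∣ z.val
  · right
    obtain ⟨k, hk⟩ := h
    refine ⟨k, ?_, ?_⟩
    · have := ZMod.val_lt z
      rw [hk] at this
      by_contra hc
      push Not at hc
      have : p * p ≤ p * k := Nat.mul_le_mul_left _ hc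
      nlinarith
    · rw [← hk, ZMod.natCast_zmod_val]
  · left
    rw [← ZMod.natCast_zmod_val z, ZMod.isUnit_iff_coprime]
    apply Nat.Coprime.pow_right
    rw [Nat.coprime_comm, hp.coprime_iff_not_dvd]
    exact h

lemma not_unit_mul (k : ℕ) (a : ZMod (p ^ 2)) : ¬ IsUnit (((p * k : ℕ) : ZMod (p ^ 2)) * a) := by
  intro h
  have h1 : IsUnit ((p * k : ℕ) : ZMod (p ^ 2)) := isUnit_of_mul_isUnit_left h
  rw [ZMod.isUnit_iff_coprime] at h1
  have h2 : Nat.Coprime p (p ^ 2) := Nat.Coprime.coprime_mul_right h1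
  have h3 : p ∣ Nat.gcd p (p ^ 2) := Nat.dvd_gcd dvd_rfl (dvd_pow_self p (by norm_num))
  rw [h2] at h3
  exact hp.one_lt.ne' (Nat.dvd_one.mp h3)

open Classical in
/-- pairs with product zero -/
lemma card_zero (T : Finset (ZMod (p ^ 2) × ZMod (p ^ 2))) (hT : ∀ t ∈ T, t.1 * t.2 = 0) :
    T.card ≤ 3 * p ^ 2 := by
  have : NeZero (p ^ 2) := ⟨(pow_pos hp.pos 2).ne'⟩
  let A : Finset (ZMod (p ^ 2) × ZMod (p ^ 2)) := ({0} : Finset _) ×ˢ univ
  let B : Finset (ZMod (p ^ 2) × ZMod (p ^ 2)) := univ ×ˢ ({0} : Finset _)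
  let D : Finset (ZMod (p ^ 2) × ZMod (p ^ 2)) :=
    (range p ×ˢ range p).image (fun k => (((p * k.1 : ℕ) : ZMod (p ^ 2)), ((p * k.2 : ℕ) : ZMod (p ^ 2))))
  have hsub : T ⊆ (A ∪ B) ∪ D := by
    intro t ht
    have h0 := hT t ht
    rcases unit_or p hp t.1 with h1 | ⟨k, hk, h1⟩
    · have : t.2 = 0 := h1.mul_right_eq_zero.mp h0
      refine mem_union_left _ (mem_union_right _ ?_)
      simp only [B, mem_product, mem_univ, mem_singleton, true_and]
      exact this
    · rcases unit_or p hp t.2 with h2 | ⟨l, hl, h2⟩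
      · have : t.1 = 0 := h2.mul_left_eq_zero.mp h0
        refine mem_union_left _ (mem_union_left _ ?_)
        simp only [A, mem_product, mem_univ, mem_singleton, and_true]
        exact this
      · refine mem_union_right _ (mem_image.mpr ⟨(k, l), by simp [hk, hl], ?_⟩)
        exact Prod.ext h1.symm h2.symm
  refine (card_le_card hsub).trans ?_
  refine (card_union_le _ _).trans ?_
  have hA : A.card = p ^ 2 := by simp [A, ZMod.card]
  have hB : B.card = p ^ 2 := by simp [B, ZMod.card]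
  have hD : D.card ≤ p ^ 2 := card_image_le.trans (by simp [sq])
  have := card_union_le A B
  omega

lemma card_sq (ι : ZMod (p ^ 2)) (hι : ι * ι = -1) (h2 : IsUnit (2 : ZMod (p ^ 2)))
    (c : ZMod (p ^ 2)) (hc : IsUnit c)
    (Z : Finset ((ZMod (p ^ 2) × ZMod (p ^ 2)) × (ZMod (p ^ 2) × ZMod (p ^ 2))))
    (hZ : ∀ z ∈ Z, (z.1.1 ^ 2 + z.1.2 ^ 2) * (z.2.1 ^ 2 + z.2.2 ^ 2) = 0 ∧
      z.1.1 * z.2.2 - z.1.2 * z.2.1 = c) :
    Z.card ≤ 6 * p ^ 4 := by
  classical
  have : NeZero (p ^ 2) := ⟨(pow_pos hp.pos 2).ne'⟩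
  have hιu : IsUnit ι := by
    refine isUnit_of_mul_isUnit_left (y := ι) ?_
    rw [hι]; exact isUnit_one.neg
  set c' : ZMod (p ^ 2) := -2 * ι * c with hc'
  have hc'u : IsUnit c' := (h2.neg.mul hιu).mul hc
  -- the pairs with `x₂ y₁ = 0`
  let E : Finset (ZMod (p ^ 2) × ZMod (p ^ 2)) := univ.filter (fun t => t.1 * t.2 = 0)
  have hE : E.card ≤ 3 * p ^ 2 := card_zero p hp E (fun t ht => (mem_filter.mp ht).2)
  let f : (ZMod (p ^ 2) × ZMod (p ^ 2)) × (ZMod (p ^ 2) × ZMod (p ^ 2)) →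
      Bool × (ZMod (p ^ 2) × (ZMod (p ^ 2) × ZMod (p ^ 2))) := fun z =>
    if (co ι z.1).2 * (co ι z.2).1 = 0 then (true, ((co ι z.1).1, ((co ι z.1).2, (co ι z.2).1)))
      else (false, ((co ι z.1).2, ((co ι z.1).1, (co ι z.2).2)))
  have hcard : ((univ : Finset Bool) ×ˢ ((univ : Finset (ZMod (p ^ 2))) ×ˢ E)).card ≤ 6 * p ^ 4 := by
    rw [card_product, card_product, card_univ, card_univ, ZMod.card, Fintype.card_bool]
    calc 2 * (p ^ 2 * E.card) ≤ 2 * (p ^ 2 * (3 * p ^ 2)) := by gcongr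
      _ = 6 * p ^ 4 := by ring
  refine le_trans (card_le_card_of_injOn f ?_ ?_) hcard
  · intro z hz
    obtain ⟨h0, h1⟩ := hZ z hz
    rw [← co_mul hι, ← co_mul hι] at h0
    have h5 := co_cross hι z.1 z.2
    rw [h1, ← hc'] at h5
    by_cases hy : (co ι z.1).2 * (co ι z.2).1 = 0
    · simp only [f, hy, if_true, mem_coe, mem_product, mem_univ, true_and, E, mem_filter]
    · simp only [f, hy, if_false, mem_coe, mem_product, mem_univ, true_and, E, mem_filter]
      -- the other product vanishes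
      have h6 : ((co ι z.1).1 * (co ι z.2).2) * ((co ι z.1).2 * (co ι z.2).1) = 0 := by
        linear_combination h0
      rcases unit_or p hp ((co ι z.1).2 * (co ι z.2).1) with h | ⟨k, hk, hk'⟩
      · exact h.mul_left_eq_zero.mp h6
      · exfalso
        rcases unit_or p hp ((co ι z.1).1 * (co ι z.2).2) with h | ⟨l, hl, hl'⟩
        · exact hy (h.mul_right_eq_zero.mp h6)
        · rw [hk', hl'] at h5
          have : c' = ((p * 1 : ℕ) : ZMod (p ^ 2)) * ((l : ZMod (p ^ 2)) - (k : ZMod (p ^ 2))) := by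
            rw [← h5]; push_cast; ring
          rw [this] at hc'u
          exact not_unit_mul p hp 1 _ hc'u
  · intro z hz z' hz' hzz
    obtain ⟨h0, h1⟩ := hZ z hz
    obtain ⟨h0', h1'⟩ := hZ z' hz'
    have h5 := co_cross hι z.1 z.2
    rw [h1, ← hc'] at h5
    have h5' := co_cross hι z'.1 z'.2
    rw [h1', ← hc'] at h5'
    rw [← co_mul hι, ← co_mul hι] at h0 h0'
    by_cases hy : (co ι z.1).2 * (co ι z.2).1 = 0
    · by_cases hy' : (co ι z'.1).2 * (co ι z'.2).1 = 0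
      · simp only [f, hy, hy', if_true, Prod.mk.injEq, true_and] at hzz
        obtain ⟨e1, e2, e3⟩ := hzz
        rw [hy, sub_zero] at h5
        rw [hy', sub_zero, ← e1] at h5'
        have hu : IsUnit (co ι z.1).1 := isUnit_of_mul_isUnit_left (h5 ▸ hc'u)
        have e4 : (co ι z.2).2 = (co ι z'.2).2 := hu.mul_left_cancel (h5.trans h5'.symm)
        exact Prod.ext (co_inj hι h2 (Prod.ext e1 e2)) (co_inj hι h2 (Prod.ext e3 e4))
      · simp [f, hy, hy'] at hzz
    · by_cases hy' : (co ι z'.1).2 * (co ι z'.2).1 = 0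
      · simp [f, hy, hy'] at hzz
      · simp only [f, hy, hy', if_false, Prod.mk.injEq, true_and] at hzz
        obtain ⟨e1, e2, e3⟩ := hzz
        have van : ∀ w w' : ZMod (p ^ 2) × ZMod (p ^ 2), w'.1 * w.2 ≠ 0 → 
            (w.1 * w'.2) * (w'.1 * w.2) = 0 → w.1 * w'.2 - w'.1 * w.2 = c' → w.1 * w'.2 = 0 := by
          intro w w' hne h6 h7
          rcases unit_or p hp (w'.1 * w.2) with h | ⟨k, hk, hk'⟩
          · exact h.mul_left_eq_zero.mp h6
          · exfalso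
            rcases unit_or p hp (w.1 * w'.2) with h | ⟨l, hl, hl'⟩
            · exact hne (h.mul_right_eq_zero.mp h6)
            · rw [hk', hl'] at h7
              have : c' = ((p * 1 : ℕ) : ZMod (p ^ 2)) * ((l : ZMod (p ^ 2)) - (k : ZMod (p ^ 2))) := by
                rw [← h7]; push_cast; ring
              rw [this] at hc'u
              exact not_unit_mul p hp 1 _ hc'u
        have g : (co ι z.1).1 * (co ι z.2).2 = 0 :=
          van (co ι z.1) (co ι z.2) (by rw [mul_comm]; exact hy) (by linear_combination h0)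
            (by linear_combination h5)
        have g' : (co ι z'.1).1 * (co ι z'.2).2 = 0 :=
          van (co ι z'.1) (co ι z'.2) (by rw [mul_comm]; exact hy') (by linear_combination h0')
            (by linear_combination h5')
        rw [g, zero_sub] at h5
        rw [g', zero_sub, ← e1] at h5'
        have hu : IsUnit (co ι z.1).2 := by
          refine isUnit_of_mul_isUnit_left (y := (co ι z.2).1) ?_
          have : (co ι z.1).2 * (co ι z.2).1 = -c' := by linear_combination -h5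
          rw [this]; exact hc'u.neg
        have e4 : (co ι z.2).1 = (co ι z'.2).1 :=
          hu.mul_left_cancel (by linear_combination h5' - h5)
        exact Prod.ext (co_inj hι h2 (Prod.ext e2 e1)) (co_inj hι h2 (Prod.ext e4 e3))

end PSq

end Loc

open Loc

theorem specSq (h : SpecEq) : SpecSq := by
  intro J hJ b₁ b₂ hb₁ hb
  obtain ⟨C, hC, h⟩ := h J hJ b₁ b₂ hb₁ hb
  refine ⟨6 * C, by positivity, ?_⟩
  intro p hp hp4 hpJ H l hH hH0 ε hε
  classical
  have hq : 0 < p ^ 2 := pow_pos hp.pos 2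
  have : NeZero (p ^ 2) := ⟨hq.ne'⟩
  let R : Finset ((ZMod (p ^ 2) × ZMod (p ^ 2)) × (ZMod (p ^ 2) × ZMod (p ^ 2))) :=
    univ.filter (fun z => (z.1.1 ^ 2 + z.1.2 ^ 2) * (z.2.1 ^ 2 + z.2.2 ^ 2) = 0 ∧
      z.1.1 * z.2.2 - z.1.2 * z.2.1 = -(J : ZMod (p ^ 2)))
  obtain ⟨ι, hι⟩ := exists_iota_sq p hp hp4
  have h2 : IsUnit (2 : ZMod (p ^ 2)) := by
    have : IsUnit ((2 : ℕ) : ZMod (p ^ 2)) := by
      rw [ZMod.isUnit_iff_coprime]
      apply Nat.Coprime.pow_right
      rw [Nat.coprime_comm, hp.coprime_iff_not_dvd]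
      intro h
      have := Nat.le_of_dvd (by norm_num) h
      have := hp.two_le
      interval_cases p; omega
    exact_mod_cast this
  have hc : IsUnit (-(J : ZMod (p ^ 2))) := by
    refine IsUnit.neg ?_
    rw [ZMod.isUnit_iff_coprime]
    apply Nat.Coprime.pow_right
    rw [Nat.coprime_comm, hp.coprime_iff_not_dvd]
    exact hpJ
  have hR : R.card ≤ 6 * p ^ 4 :=
    card_sq p hp ι hι h2 _ hc R (fun z hz => (mem_filter.mp hz).2)
  have hR' : (R.card : ℝ) ≤ 6 * (p : ℝ) ^ 4 := by exact_mod_cast hR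
  have hI : 0 ≤ ∫ b : ℝ, ∫ s : ℝ, H b s :=
    MeasureTheory.integral_nonneg (fun b => MeasureTheory.integral_nonneg (fun s => hH0 b s))
  have hp0 : (0 : ℝ) < p := by exact_mod_cast hp.pos
  filter_upwards [h (p ^ 2) hq R H l hH hH0 ε hε, eventually_ge_atTop (0 : ℝ)] with X hX hX0 M
  refine le_trans ?_ ((hX M).trans ?_)
  · refine Finset.sum_le_sum_of_subset_of_nonneg ?_ (fun x _ _ => hH0 _ _)
    intro x hx
    rw [mem_filter] at hx ⊢
    refine ⟨hx.1, ?_⟩
    simp only [R, mem_filter, mem_univ, true_and]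
    have hcross := (mem_pairs.mp hx.1).2
    constructor
    · have h1 : ((nsq x.1 * nsq x.2 : ℤ) : ZMod (p ^ 2)) = 0 := by
        rw [ZMod.intCast_zmod_eq_zero_iff_dvd]
        push_cast
        exact hx.2
      simp only [nsq] at h1
      push_cast at h1
      simp only [res]
      exact h1
    · have := congrArg (fun t : ℤ => (t : ZMod (p ^ 2))) hcross
      simp only [cross] at this
      push_cast at this
      simp only [res]
      exact this
  · refine mul_le_mul_of_nonneg_right ?_ hX0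
    have h3 : C * (R.card : ℝ) / (((p ^ 2 : ℕ)) : ℝ) ^ 3 ≤ 6 * C / (p : ℝ) ^ 2 := by
      rw [div_le_div_iff₀ (by positivity) (by positivity)]
      push_cast
      have : C * (R.card : ℝ) * (p : ℝ) ^ 2 ≤ C * (6 * (p : ℝ) ^ 4) * (p : ℝ) ^ 2 := by gcongr
      calc C * (R.card : ℝ) * (p : ℝ) ^ 2 ≤ C * (6 * (p : ℝ) ^ 4) * (p : ℝ) ^ 2 := this
        _ = 6 * C * ((p : ℝ) ^ 2) ^ 3 := by ring
    have := mul_le_mul_of_nonneg_right h3 hI
    linarith

theorem specEql (h : SpecEq) : SpecEql := by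
  intro J hJ b₁ b₂ hb₁ hb
  obtain ⟨C, hC, h⟩ := h J hJ b₁ b₂ hb₁ hb
  refine ⟨C, hC, ?_⟩
  intro P hPp S hS H l hH hH0 ε hε
  classical
  have hP : Pairwise (fun i j : P => Nat.Coprime (i : ℕ) (j : ℕ)) := by
    intro i j hij
    exact (Nat.coprime_primes (hPp i i.2).1 (hPp j j.2).1).mpr (fun h => hij (Subtype.ext h))
  have hq : 0 < md P := by
    unfold md
    exact Finset.prod_pos (fun i _ => (hPp i i.2).1.pos)
  have : NeZero (md P) := ⟨hq.ne'⟩
  let R : Finset ((ZMod (md P) × ZMod (md P)) × (ZMod (md P) × ZMod (md P))) :=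
    univ.filter (fun z => ∀ i : P, cP J S i (red P hP z i))
  have hR : (R.card : ℝ) ≤ ((md P : ℕ) : ℝ) ^ 3 * Wt P S :=
    card_red J P S hS hPp hP R (fun z hz => (mem_filter.mp hz).2)
  have hI : 0 ≤ ∫ b : ℝ, ∫ s : ℝ, H b s :=
    MeasureTheory.integral_nonneg (fun b => MeasureTheory.integral_nonneg (fun s => hH0 b s))
  filter_upwards [h (md P) hq R H l hH hH0 ε hε, eventually_ge_atTop (0 : ℝ)] with X hX hX0 M
  refine le_trans ?_ ((hX M).trans ?_)
  · refine Finset.sum_le_sum_of_subset_of_nonneg ?_ (fun x _ _ => hH0 _ _)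
    intro x hx
    rw [mem_filter] at hx ⊢
    refine ⟨hx.1, ?_⟩
    simp only [R, mem_filter, mem_univ, true_and]
    intro i
    have hcross := (mem_pairs.mp hx.1).2
    have hx2 := hx.2 i i.2
    have ee : ∀ a : ℤ, ZMod.prodEquivPi (fun i : P => (i : ℕ)) hP (a : ZMod (md P)) i
        = (a : ZMod (i : ℕ)) := by
      intro a
      have : (ZMod.prodEquivPi (fun i : P => (i : ℕ)) hP) (a : ZMod (∏ i : P, (i : ℕ)))
          = (a : (i : P) → ZMod (i : ℕ)) := map_intCast _ a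
      have h2 := congrFun this i
      rw [Pi.intCast_apply] at h2
      exact h2
    refine ⟨?_, ?_, ?_⟩
    · simp only [red, res, ee]
      intro h0
      apply hx2.1
      have : ((nsq x.1 : ℤ) : ZMod (i : ℕ)) = 0 := by
        simp only [nsq]; push_cast; exact h0
      exact (ZMod.intCast_zmod_eq_zero_iff_dvd _ _).mp this
    · simp only [red, res, ee]
      rw [← hx2.2, ← ZMod.intCast_zmod_eq_zero_iff_dvd]
      simp only [nsq]; push_cast; rfl
    · simp only [red, res, ee]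
      have := congrArg (fun t : ℤ => (t : ZMod (i : ℕ))) hcross
      simp only [cross] at this
      push_cast at this
      exact this
  · refine mul_le_mul_of_nonneg_right ?_ hX0
    have hq3 : (0 : ℝ) < ((md P : ℕ) : ℝ) ^ 3 := by positivity
    have : (R.card : ℝ) / ((md P : ℕ) : ℝ) ^ 3 ≤ Wt P S := by
      rw [div_le_iff₀ hq3]; linarith
    have h3 : C * (R.card : ℝ) / ((md P : ℕ) : ℝ) ^ 3 ≤ C * Wt P S := by
      rw [mul_div_assoc]; exact mul_le_mul_of_nonneg_left this hC.le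
    have := mul_le_mul_of_nonneg_right h3 hI
    linarith

end Pool.Agent.Lib.MP391708.Eqd
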