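import Pool.Agent.Lib.MP_391708_nt.Eqd.Spec

set_option autoImplicit false

namespace Pool.Agent.Lib.MP391708.Eqd

open Finset Filter Topology

namespace Low

/-- multiples of `g` in an interval -/
lemma card_mult (A B g : ℕ) (hg : 0 < g) :
    (((Ioc A B).filter (fun c => g ∣ c)).card : ℝ) ≤ ((B - A : ℕ) : ℝ) / g + 1 := by
  have hg0 : (0 : ℝ) < g := by exact_mod_cast hg
  have h1 : ((Ioc A B).filter (fun c => g ∣ c)).card ≤ (B - A) / g + 1 := by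
    have : ((Ioc A B).filter (fun c => g ∣ c)).card ≤ (Ioc (A / g) (B / g)).card := by
      refine card_le_card_of_injOn (fun c => c / g) ?_ ?_
      · intro c hc
        simp only [coe_filter, mem_Ioc, Set.mem_ofPred_eq] at hc
        obtain ⟨⟨h1, h2⟩, k, rfl⟩ := hc
        simp only [coe_Ioc, Set.mem_Ioc]
        rw [Nat.mul_div_cancel_left _ hg]
        constructor
        · rw [Nat.div_lt_iff_lt_mul hg]; linarith [mul_comm g k]
        · rw [Nat.le_div_iff_mul_le hg]; linarith [mul_comm g k]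
      · intro c hc c' hc' h
        simp only [coe_filter, mem_Ioc, Set.mem_ofPred_eq] at hc hc'
        obtain ⟨_, k, rfl⟩ := hc
        obtain ⟨_, k', rfl⟩ := hc'
        simp only [Nat.mul_div_cancel_left _ hg] at h
        rw [h]
    refine this.trans ?_
    rw [Nat.card_Ioc]
    rcases le_total A B with hAB | hAB
    · have h3 := Nat.div_add_mod A g
      have h4 := Nat.div_add_mod B g
      have h5 := Nat.div_add_mod (B - A) g
      have h6 := Nat.mod_lt A hg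
      have h7 := Nat.mod_lt B hg
      have h8 := Nat.mod_lt (B - A) hg
      generalize A / g = u at *
      generalize B / g = v at *
      generalize (B - A) / g = w at *
      generalize A % g = a at *
      generalize B % g = b at *
      generalize (B - A) % g = e at *
      by_contra hc
      push Not at hc
      have h9 : u + (w + 2) ≤ v := by omega
      have h10 : g * (u + (w + 2)) ≤ g * v := Nat.mul_le_mul_left _ h9
      rw [Nat.mul_add, Nat.mul_add] at h10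
      omega
    · have : B / g ≤ A / g := Nat.div_le_div_right hAB
      generalize A / g = u at *
      generalize B / g = v at *
      generalize (B - A) / g = w at *
      omega
  have h2 : (((Ioc A B).filter (fun c => g ∣ c)).card : ℝ) ≤ (((B - A) / g : ℕ) : ℝ) + 1 := by
    exact_mod_cast h1
  refine h2.trans ?_
  have : (((B - A) / g : ℕ) : ℝ) ≤ ((B - A : ℕ) : ℝ) / g := Nat.cast_div_le
  linarith

lemma sum_inv_sq (G : ℕ) : ∑ g ∈ Ioc 1 G, 1 / (g : ℝ) ^ 2 ≤ 3 / 4 := by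
  rcases lt_or_ge G 2 with h | h
  · have : Ioc 1 G = ∅ := by
      apply Finset.Ioc_eq_empty; omega
    rw [this]; norm_num
  · have h1 : Ioc 1 G = insert 2 (Ioc 2 G) := by
      ext x; simp only [mem_Ioc, mem_insert]; omega
    rw [h1, sum_insert (by simp)]
    have h2 := sum_Ioc_inv_sq_le_sub (α := ℝ) (k := 2) (n := G) (by norm_num) h
    have h3 : ∑ g ∈ Ioc 2 G, 1 / (g : ℝ) ^ 2 = ∑ i ∈ Ioc 2 G, ((i : ℝ) ^ 2)⁻¹ :=
      sum_congr rfl (fun g _ => one_div _)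
    rw [h3]
    have h4 : (0 : ℝ) ≤ (G : ℝ)⁻¹ := by positivity
    push_cast at h2 ⊢
    linarith

lemma sum_inv (G : ℕ) : ∑ g ∈ Ioc 1 G, 1 / (g : ℝ) ≤ 2 * Real.sqrt G := by
  induction G with
  | zero => simp
  | succ n ih =>
    rcases Nat.eq_zero_or_pos n with rfl | hn
    · simp
    · rw [Finset.sum_Ioc_succ_top (by omega)]
      have h1 : (0 : ℝ) < n := by exact_mod_cast hn
      set a := Real.sqrt n with ha
      set b := Real.sqrt ((n + 1 : ℕ) : ℝ) with hb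
      have hb2 : b ^ 2 = (n : ℝ) + 1 := by
        rw [hb, Real.sq_sqrt (by positivity)]; push_cast; ring
      have ha2 : a ^ 2 = (n : ℝ) := Real.sq_sqrt h1.le
      have hb0 : 0 < b := Real.sqrt_pos.mpr (by positivity)
      have ha0 : 0 < a := Real.sqrt_pos.mpr h1
      have h2 : 1 / (((n + 1 : ℕ)) : ℝ) = 1 / b ^ 2 := by rw [hb2]; push_cast; ring
      rw [h2]
      have hb1 : 1 ≤ b := by nlinarith
      have h3 : a ≤ b := by
        apply Real.sqrt_le_sqrt; push_cast; linarith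
      have h4 : 1 / b ^ 2 ≤ 2 * (b - a) := by
        rw [div_le_iff₀ (by positivity)]
        have h5 : (b - a) * (b + a) = 1 := by linear_combination hb2 - ha2
        have h6 : (b - a) * (b + a) ≤ (b - a) * (2 * b ^ 2) := by
          apply mul_le_mul_of_nonneg_left _ (by linarith)
          nlinarith
        linarith
      linarith

/-- number of non-coprime pairs -/
lemma card_noncop (A₁ A₂ B₁ B₂ : ℕ) :
    (((Ioc A₁ A₂ ×ˢ Ioc B₁ B₂).filter (fun x => ¬ Nat.Coprime x.1 x.2)).card : ℝ)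
      ≤ 3 / 4 * ((A₂ - A₁ : ℕ) : ℝ) * ((B₂ - B₁ : ℕ) : ℝ)
        + (((A₂ - A₁ : ℕ) : ℝ) + ((B₂ - B₁ : ℕ) : ℝ)) * (2 * Real.sqrt A₂) + A₂ := by
  classical
  set a : ℝ := ((A₂ - A₁ : ℕ) : ℝ) with ha
  set b : ℝ := ((B₂ - B₁ : ℕ) : ℝ) with hb
  have hsub : (Ioc A₁ A₂ ×ˢ Ioc B₁ B₂).filter (fun x => ¬ Nat.Coprime x.1 x.2) ⊆
      (Ioc 1 A₂).biUnion (fun g => ((Ioc A₁ A₂).filter (fun c => g ∣ c)) ×ˢ
        ((Ioc B₁ B₂).filter (fun c => g ∣ c))) := by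
    intro x hx
    rw [mem_filter, mem_product, mem_Ioc, mem_Ioc] at hx
    obtain ⟨⟨hx1, hx2⟩, hx3⟩ := hx
    rw [mem_biUnion]
    refine ⟨Nat.gcd x.1 x.2, ?_, ?_⟩
    · rw [mem_Ioc]
      have h1 : 0 < Nat.gcd x.1 x.2 := Nat.gcd_pos_of_pos_left _ (by omega)
      have h2 : Nat.gcd x.1 x.2 ≤ x.1 := Nat.gcd_le_left _ (by omega)
      have h3 : Nat.gcd x.1 x.2 ≠ 1 := hx3
      omega
    · rw [mem_product, mem_filter, mem_filter, mem_Ioc, mem_Ioc]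
      exact ⟨⟨hx1, Nat.gcd_dvd_left _ _⟩, hx2, Nat.gcd_dvd_right _ _⟩
  have h1 := (card_le_card hsub).trans card_biUnion_le
  have h2 : (((Ioc A₁ A₂ ×ˢ Ioc B₁ B₂).filter (fun x => ¬ Nat.Coprime x.1 x.2)).card : ℝ)
      ≤ ∑ g ∈ Ioc 1 A₂, (a / g + 1) * (b / g + 1) := by
    refine (Nat.cast_le.mpr h1).trans ?_
    push_cast
    refine sum_le_sum (fun g hg => ?_)
    have hg0 : 0 < g := by rw [mem_Ioc] at hg; omega
    rw [card_product]
    push_cast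
    exact mul_le_mul (card_mult _ _ _ hg0) (card_mult _ _ _ hg0) (by positivity) (by positivity)
  refine h2.trans ?_
  have h3 : ∑ g ∈ Ioc 1 A₂, (a / (g : ℝ) + 1) * (b / g + 1)
      = a * b * ∑ g ∈ Ioc 1 A₂, 1 / (g : ℝ) ^ 2 + (a + b) * ∑ g ∈ Ioc 1 A₂, 1 / (g : ℝ)
        + ((Ioc 1 A₂).card : ℝ) := by
    rw [mul_sum, mul_sum, card_eq_sum_ones]
    push_cast
    rw [← sum_add_distrib, ← sum_add_distrib]
    refine sum_congr rfl (fun g hg => ?_)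
    have hg0 : (g : ℝ) ≠ 0 := by
      have : 0 < g := by rw [mem_Ioc] at hg; omega
      exact_mod_cast this.ne'
    field_simp
    ring
  rw [h3]
  have ha0 : 0 ≤ a := by positivity
  have hb0 : 0 ≤ b := by positivity
  have h4 := mul_le_mul_of_nonneg_left (sum_inv_sq A₂) (mul_nonneg ha0 hb0)
  have h5 := mul_le_mul_of_nonneg_left (sum_inv A₂) (add_nonneg ha0 hb0)
  have h6 : ((Ioc 1 A₂).card : ℝ) ≤ A₂ := by
    rw [Nat.card_Ioc]; exact_mod_cast Nat.sub_le _ _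
  linarith

/-- solution of `c d' = 1 + d c'` -/
lemma exists_bez (c c' : ℕ) (hc : 0 < c) (hcop : Nat.Coprime c c') :
    ∃ d d' : ℕ, d < c ∧ c * d' = 1 + d * c' := by
  have : NeZero c := ⟨hc.ne'⟩
  let u : (ZMod c)ˣ := ZMod.unitOfCoprime c' hcop.symm
  have hu : ((u⁻¹ : (ZMod c)ˣ) : ZMod c) * (c' : ZMod c) = 1 := by
    have := u.inv_mul
    rwa [ZMod.coe_unitOfCoprime] at this
  refine ⟨(-((u⁻¹ : (ZMod c)ˣ) : ZMod c)).val, (1 + (-((u⁻¹ : (ZMod c)ˣ) : ZMod c)).val * c') / c,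
    ZMod.val_lt _, ?_⟩
  refine Nat.mul_div_cancel' ?_
  rw [← ZMod.natCast_eq_zero_iff]
  push_cast
  rw [ZMod.natCast_zmod_val]
  linear_combination -hu

open Classical in
/-- chosen solution -/
noncomputable def bz (c c' : ℕ) : ℕ × ℕ :=
  if h : 0 < c ∧ Nat.Coprime c c' then
    (Classical.choose (exists_bez c c' h.1 h.2),
      Classical.choose (Classical.choose_spec (exists_bez c c' h.1 h.2))) else (0, 0)

lemma bz_spec {c c' : ℕ} (hc : 0 < c) (hcop : Nat.Coprime c c') :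
    (bz c c').1 < c ∧ c * (bz c c').2 = 1 + (bz c c').1 * c' := by
  have h : 0 < c ∧ Nat.Coprime c c' := ⟨hc, hcop⟩
  have := Classical.choose_spec (Classical.choose_spec (exists_bez c c' h.1 h.2))
  unfold bz
  rw [dif_pos h]
  exact this

/-- the pair is determined by `(n, D)` -/
lemma bez_inj {c c' d d' e e' f f' : ℤ} (hc : 0 < c) (he : 0 < e) (hd0 : 0 ≤ d) (hd : d < c)
    (hf0 : 0 ≤ f) (hf : f < e) (h1 : c * d' = 1 + d * c') (h2 : e * f' = 1 + f * e')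
    (hn : c * c' + d * d' = e * e' + f * f') (hD : c ^ 2 + d ^ 2 = e ^ 2 + f ^ 2) :
    c = e ∧ c' = e' := by
  set D : ℤ := c ^ 2 + d ^ 2 with hDdef
  set n : ℤ := c * c' + d * d' with hndef
  have e1 : n * c = c' * D + d := by rw [hndef, hDdef]; linear_combination d * h1
  have e2 : n * e = e' * D + f := by rw [hn, hD]; linear_combination f * h2
  have e3 : c * f - d * e = D * (c' * e - c * e') := by linear_combination e * e1 - c * e2
  have hce : c * e ≤ D := by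
    have h3 : (c * e) ^ 2 ≤ D ^ 2 := by
      have h4 : D ^ 2 = (c ^ 2 + d ^ 2) * (e ^ 2 + f ^ 2) := by rw [sq]; nth_rewrite 2 [hD]; rfl
      rw [h4]
      nlinarith [sq_nonneg (c * f), sq_nonneg (d * e), sq_nonneg (d * f)]
    have h5 : 0 ≤ D := by rw [hDdef]; positivity
    exact le_of_sq_le_sq h3 h5
  have hD0 : 0 < D := by rw [hDdef]; positivity
  have h6 : c * f < D := lt_of_lt_of_le (mul_lt_mul_of_pos_left hf hc) hce
  have h7 : d * e < D := lt_of_lt_of_le (mul_lt_mul_of_pos_right hd he) hce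
  have h8 : 0 ≤ c * f := mul_nonneg hc.le hf0
  have h9 : 0 ≤ d * e := mul_nonneg hd0 he.le
  have h10 : c' * e - c * e' = 0 := by
    by_contra hne
    rcases lt_or_gt_of_ne hne with h | h
    · have : D * (c' * e - c * e') ≤ D * (-1) := mul_le_mul_of_nonneg_left (by omega) hD0.le
      linarith
    · have : D * 1 ≤ D * (c' * e - c * e') := mul_le_mul_of_nonneg_left (by omega) hD0.le
      linarith
  rw [h10, mul_zero] at e3
  have h11 : c ^ 2 * (e ^ 2 + f ^ 2) = e ^ 2 * (e ^ 2 + f ^ 2) := by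
    have : (c * f) ^ 2 = (d * e) ^ 2 := by rw [sub_eq_zero.mp e3]
    have h12 : e ^ 2 * (c ^ 2 + d ^ 2) = e ^ 2 * (e ^ 2 + f ^ 2) := by rw [← hDdef, hD]
    linear_combination h12 + this
  have h13 : (0 : ℤ) < e ^ 2 + f ^ 2 := by positivity
  have h14 : c ^ 2 = e ^ 2 := mul_right_cancel₀ h13.ne' h11
  have h15 : c = e := by
    have h16 : (c - e) * (c + e) = 0 := by linear_combination h14
    rcases mul_eq_zero.mp h16 with h | h
    · omega
    · omega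
  refine ⟨h15, ?_⟩
  rw [h15] at h10
  have : e * (c' - e') = 0 := by linear_combination h10
  rcases mul_eq_zero.mp this with h | h
  · omega
  · omega

/-- `(n, D)` of a coprime pair -/
noncomputable def nD (x : ℕ × ℕ) : Σ _ : ℕ, ℕ :=
  ⟨x.1 * x.2 + (bz x.1 x.2).1 * (bz x.1 x.2).2, x.1 ^ 2 + (bz x.1 x.2).1 ^ 2⟩

lemma nD_inj {x y : ℕ × ℕ} (hx : 0 < x.1) (hy : 0 < y.1) (hx' : Nat.Coprime x.1 x.2)
    (hy' : Nat.Coprime y.1 y.2) (h : nD x = nD y) : x = y := by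
  obtain ⟨a1, a2⟩ := bz_spec hx hx'
  obtain ⟨b1, b2⟩ := bz_spec hy hy'
  have h1 : x.1 * x.2 + (bz x.1 x.2).1 * (bz x.1 x.2).2
      = y.1 * y.2 + (bz y.1 y.2).1 * (bz y.1 y.2).2 := congrArg Sigma.fst h
  have h2 : x.1 ^ 2 + (bz x.1 x.2).1 ^ 2 = y.1 ^ 2 + (bz y.1 y.2).1 ^ 2 := by
    have := congrArg (fun t : Σ _ : ℕ, ℕ => t.2) h
    exact this
  obtain ⟨g1, g2⟩ := bez_inj (c := (x.1 : ℤ)) (c' := x.2) (d := (bz x.1 x.2).1)
    (d' := (bz x.1 x.2).2) (e := y.1) (e' := y.2) (f := (bz y.1 y.2).1) (f' := (bz y.1 y.2).2)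
    (by exact_mod_cast hx) (by exact_mod_cast hy) (by positivity) (by exact_mod_cast a1)
    (by positivity) (by exact_mod_cast b1) (by exact_mod_cast a2) (by exact_mod_cast b2)
    (by exact_mod_cast h1) (by exact_mod_cast h2)
  exact Prod.ext (by exact_mod_cast g1) (by exact_mod_cast g2)

/-- the pair belongs to the window -/
lemma nD_mem {α β t ρ : ℝ} (hα : 0 < α) (ht : 0 < t) (hρ : 1 < ρ) (h1 : ρ < t * β)
    (h2 : α * t * ρ < 1) {Y N : ℕ} (hY : 1 ≤ Y) (hY2 : α < (1 - α * t * ρ) * (Y : ℝ) ^ 2)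
    (hN : 2 * t * ρ ^ 2 * (Y : ℝ) ^ 2 ≤ N) {x : ℕ × ℕ} (hx1 : Y < x.1) (hx1' : (x.1 : ℝ) ≤ ρ * Y)
    (hx2 : t * Y < x.2) (hx2' : (x.2 : ℝ) ≤ t * ρ * Y) (hcop : Nat.Coprime x.1 x.2) :
    nD x ∈ (Icc 1 N).sigma (dw α β) := by
  have hc : 0 < x.1 := by omega
  obtain ⟨a1, a2⟩ := bz_spec hc hcop
  set c := x.1 with hcdef
  set c' := x.2 with hc'def
  set d := (bz c c').1 with hd
  set d' := (bz c c').2 with hd'
  have hYr : (1 : ℝ) ≤ Y := by exact_mod_cast hY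
  have hc' : 0 < c' := by
    have : (0 : ℝ) < c' := lt_trans (by positivity) hx2
    exact_mod_cast this
  have hd'c : d' ≤ c' := by
    have : c * d' ≤ c * c' := by
      rw [a2]
      calc 1 + d * c' ≤ c' + d * c' := by omega
        _ = (d + 1) * c' := by ring
        _ ≤ c * c' := Nat.mul_le_mul_right _ a1
    exact Nat.le_of_mul_le_mul_left this hc
  have key : (c * c' + d * d') ^ 2 + 1 = (c ^ 2 + d ^ 2) * (c' ^ 2 + d' ^ 2) := by
    have h : ((c : ℤ) * d') = 1 + d * c' := by exact_mod_cast a2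
    have : (((c * c' + d * d') ^ 2 + 1 : ℕ) : ℤ) = ((c ^ 2 + d ^ 2) * (c' ^ 2 + d' ^ 2) : ℕ) := by
      push_cast
      linear_combination (-(c : ℤ) * d' + d * c' - 1) * h
    exact_mod_cast this
  have hcr : (0 : ℝ) < c := by exact_mod_cast hc
  have hYc : (Y : ℝ) < c := by exact_mod_cast hx1
  have hnc : ((c * c' + d * d' : ℕ) : ℝ) * c = c' * ((c ^ 2 + d ^ 2 : ℕ) : ℝ) + d := by
    have h : ((c : ℝ) * d') = 1 + d * c' := by exact_mod_cast a2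
    push_cast
    linear_combination (d : ℝ) * h
  have hdc : (d : ℝ) < c := by exact_mod_cast a1
  have hd0 : (0 : ℝ) ≤ d := by positivity
  have hDc : (c : ℝ) ^ 2 ≤ ((c ^ 2 + d ^ 2 : ℕ) : ℝ) := by push_cast; nlinarith
  rw [mem_sigma]
  show (c * c' + d * d' : ℕ) ∈ Icc 1 N ∧ (c ^ 2 + d ^ 2 : ℕ) ∈ dw α β (c * c' + d * d')
  constructor
  · rw [mem_Icc]
    constructor
    · have : 0 < c * c' := Nat.mul_pos hc hc'
      omega
    · have h3 : c * c' + d * d' ≤ 2 * (c * c') := by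
        have : d * d' ≤ c * c' := Nat.mul_le_mul a1.le hd'c
        omega
      have h4 : ((2 * (c * c') : ℕ) : ℝ) ≤ N := by
        push_cast
        have h5 : (c : ℝ) * c' ≤ (ρ * Y) * (t * ρ * Y) :=
          mul_le_mul hx1' hx2' (by positivity) (by positivity)
        nlinarith
      exact h3.trans (by exact_mod_cast h4)
  · simp only [dw, mem_filter, Nat.mem_divisors]
    refine ⟨⟨Dvd.intro _ key.symm, by omega⟩, ?_, ?_⟩
    · -- `α n < D`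
      set D : ℝ := ((c ^ 2 + d ^ 2 : ℕ) : ℝ) with hD
      set n : ℝ := ((c * c' + d * d' : ℕ) : ℝ) with hn
      have h5 : α * n * c < D * c := by
        have e1 : α * n * c = α * (c' : ℝ) * D + α * d := by
          rw [mul_assoc, hnc]; ring
        rw [e1]
        have hD0 : (0 : ℝ) < D := lt_of_lt_of_le (by positivity) hDc
        have h6 : α * (c' : ℝ) ≤ α * t * ρ * c := by
          have : (c' : ℝ) ≤ t * ρ * c := hx2'.trans (by
            apply mul_le_mul_of_nonneg_left hYc.le (by positivity))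
          calc α * (c' : ℝ) ≤ α * (t * ρ * c) := by gcongr
            _ = α * t * ρ * c := by ring
        have h7 : α * (c' : ℝ) * D ≤ α * t * ρ * c * D := by gcongr
        have h8 : α * d ≤ α * c := by gcongr
        have h9 : (Y : ℝ) ^ 2 ≤ D := by
          refine le_trans ?_ hDc
          gcongr
        have h10 : α * c < (1 - α * t * ρ) * D * c := by
          apply mul_lt_mul_of_pos_right _ hcr
          refine lt_of_lt_of_le hY2 ?_
          apply mul_le_mul_of_nonneg_left h9 (by linarith)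
        nlinarith
      exact lt_of_mul_lt_mul_right h5 hcr.le
    · set D : ℝ := ((c ^ 2 + d ^ 2 : ℕ) : ℝ) with hD
      set n : ℝ := ((c * c' + d * d' : ℕ) : ℝ) with hn
      have hD0 : (0 : ℝ) < D := lt_of_lt_of_le (by positivity) hDc
      have hβ : 0 < β := by
        by_contra hneg
        push Not at hneg
        nlinarith [mul_nonpos_of_nonneg_of_nonpos ht.le hneg]
      have h5 : D * c ≤ β * n * c := by
        have e1 : β * n * c = β * (c' : ℝ) * D + β * d := by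
          rw [mul_assoc, hnc]; ring
        rw [e1]
        have h6 : (c : ℝ) ≤ β * c' := by
          calc (c : ℝ) ≤ ρ * Y := hx1'
            _ ≤ (t * β) * Y := by gcongr
            _ = β * (t * Y) := by ring
            _ ≤ β * c' := by gcongr
        have h7 : (c : ℝ) * D ≤ β * c' * D := by gcongr
        have h8 : 0 ≤ β * d := by positivity
        linarith
      exact le_of_mul_le_mul_right h5 hcr

/-- lower bound for the number of coprime pairs -/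
lemma count_le {t ρ κ K₁ K₂ : ℝ} (ht0 : 0 < t) (hρ1 : 1 < ρ) (hκ : κ = ρ - 1)
    (hK₁ : K₁ = κ + t * κ + 1) (hK₂ : K₂ = 2 * K₁ * Real.sqrt ρ + ρ) {Y : ℕ} (g1 : 1 ≤ Y)
    (g2 : 2 ≤ κ * Y) (g3 : 2 ≤ t * κ * Y) (g5 : 32 * K₂ / (t * κ ^ 2) ≤ Real.sqrt Y) :
    t * κ ^ 2 / 32 * (Y : ℝ) ^ 2 ≤
      (((Ioc Y ⌊ρ * Y⌋₊ ×ˢ Ioc ⌊t * Y⌋₊ ⌊t * ρ * Y⌋₊).filter
        (fun x => Nat.Coprime x.1 x.2)).card : ℝ) := by
  have hκ0 : 0 < κ := by rw [hκ]; linarith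
  have hρ0 : 0 < ρ := by linarith
  have hK₁0 : 0 < K₁ := by rw [hK₁]; positivity
  have hYr : (1 : ℝ) ≤ Y := by exact_mod_cast g1
  have hY0 : (0 : ℝ) < Y := by linarith
  have hA2 : (⌊ρ * Y⌋₊ : ℝ) ≤ ρ * Y := Nat.floor_le (by positivity)
  have hA2' : ρ * Y - 1 < (⌊ρ * Y⌋₊ : ℝ) := by linarith [Nat.lt_floor_add_one (ρ * (Y : ℝ))]
  have hB1 : (⌊t * Y⌋₊ : ℝ) ≤ t * Y := Nat.floor_le (by positivity)
  have hB1' : t * Y - 1 < (⌊t * Y⌋₊ : ℝ) := by linarith [Nat.lt_floor_add_one (t * (Y : ℝ))]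
  have hB2 : (⌊t * ρ * Y⌋₊ : ℝ) ≤ t * ρ * Y := Nat.floor_le (by positivity)
  have hB2' : t * ρ * Y - 1 < (⌊t * ρ * Y⌋₊ : ℝ) := by
    linarith [Nat.lt_floor_add_one (t * ρ * (Y : ℝ))]
  have hAle : Y ≤ ⌊ρ * (Y : ℝ)⌋₊ := Nat.le_floor (by nlinarith)
  have hBle : ⌊t * (Y : ℝ)⌋₊ ≤ ⌊t * ρ * (Y : ℝ)⌋₊ := Nat.floor_le_floor (by
    have : t * Y * 1 ≤ t * Y * ρ := by gcongr
    linarith)
  have hnc := card_noncop Y ⌊ρ * (Y : ℝ)⌋₊ ⌊t * (Y : ℝ)⌋₊ ⌊t * ρ * (Y : ℝ)⌋₊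
  rw [Nat.cast_sub hAle, Nat.cast_sub hBle] at hnc
  have hsplit := Finset.card_filter_add_card_filter_not
    (s := Ioc Y ⌊ρ * (Y : ℝ)⌋₊ ×ˢ Ioc ⌊t * (Y : ℝ)⌋₊ ⌊t * ρ * (Y : ℝ)⌋₊)
    (fun x : ℕ × ℕ => Nat.Coprime x.1 x.2)
  rw [card_product, Nat.card_Ioc, Nat.card_Ioc] at hsplit
  have hsplit' : (((Ioc Y ⌊ρ * (Y : ℝ)⌋₊ ×ˢ Ioc ⌊t * (Y : ℝ)⌋₊ ⌊t * ρ * (Y : ℝ)⌋₊).filter
      (fun x => Nat.Coprime x.1 x.2)).card : ℝ) +
      (((Ioc Y ⌊ρ * (Y : ℝ)⌋₊ ×ˢ Ioc ⌊t * (Y : ℝ)⌋₊ ⌊t * ρ * (Y : ℝ)⌋₊).filter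
      (fun x => ¬ Nat.Coprime x.1 x.2)).card : ℝ)
      = ((⌊ρ * (Y : ℝ)⌋₊ : ℝ) - Y) * ((⌊t * ρ * (Y : ℝ)⌋₊ : ℝ) - ⌊t * (Y : ℝ)⌋₊) := by
    rw [← Nat.cast_sub hAle, ← Nat.cast_sub hBle]
    exact_mod_cast hsplit
  have e1 : ρ * (Y : ℝ) = κ * Y + Y := by rw [hκ]; ring
  have e2 : t * ρ * (Y : ℝ) = t * κ * Y + t * Y := by rw [hκ]; ring
  set nc : ℝ := (((Ioc Y ⌊ρ * (Y : ℝ)⌋₊ ×ˢ Ioc ⌊t * (Y : ℝ)⌋₊ ⌊t * ρ * (Y : ℝ)⌋₊).filter
      (fun x => ¬ Nat.Coprime x.1 x.2)).card : ℝ) with hncdef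
  set cp : ℝ := (((Ioc Y ⌊ρ * (Y : ℝ)⌋₊ ×ˢ Ioc ⌊t * (Y : ℝ)⌋₊ ⌊t * ρ * (Y : ℝ)⌋₊).filter
      (fun x => Nat.Coprime x.1 x.2)).card : ℝ) with hcpdef
  set fA : ℝ := (⌊ρ * (Y : ℝ)⌋₊ : ℝ) with hfA
  set fB : ℝ := (⌊t * (Y : ℝ)⌋₊ : ℝ) with hfB
  set fB2 : ℝ := (⌊t * ρ * (Y : ℝ)⌋₊ : ℝ) with hfB2
  clear_value nc cp fA fB fB2
  have ha1 : κ * Y / 2 ≤ fA - Y := by linarith
  have hb1 : t * κ * Y / 2 ≤ fB2 - fB := by linarith
  have ha2 : fA - Y ≤ κ * Y := by linarith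
  have hb2 : fB2 - fB ≤ t * κ * Y + 1 := by linarith
  have ha0 : 0 ≤ fA - Y := le_trans (by positivity) ha1
  have hb0 : 0 ≤ fB2 - fB := le_trans (by positivity) hb1
  have hab : t * κ ^ 2 / 4 * (Y : ℝ) ^ 2 ≤ (fA - Y) * (fB2 - fB) := by
    calc t * κ ^ 2 / 4 * (Y : ℝ) ^ 2 = (κ * Y / 2) * (t * κ * Y / 2) := by ring
      _ ≤ (fA - Y) * (fB2 - fB) := mul_le_mul ha1 hb1 (by positivity) ha0
  have hab2 : (fA - Y) + (fB2 - fB) ≤ K₁ * Y := by
    have : K₁ * Y = κ * Y + t * κ * Y + Y := by rw [hK₁]; ring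
    linarith
  have hsq : Real.sqrt fA ≤ Real.sqrt ρ * Real.sqrt Y := by
    rw [← Real.sqrt_mul hρ0.le]; exact Real.sqrt_le_sqrt hA2
  have hY1 : (1 : ℝ) ≤ Real.sqrt Y := by
    rw [← Real.sqrt_one]; exact Real.sqrt_le_sqrt hYr
  have herr : ((fA - Y) + (fB2 - fB)) * (2 * Real.sqrt fA) + fA
      ≤ K₂ * (Y * Real.sqrt Y) := by
    have f1 : ((fA - Y) + (fB2 - fB)) * (2 * Real.sqrt fA)
        ≤ (K₁ * Y) * (2 * (Real.sqrt ρ * Real.sqrt Y)) := by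
      apply mul_le_mul hab2 (by linarith) (by positivity) (by positivity)
    have f2 : fA ≤ ρ * (Y * Real.sqrt Y) := by
      refine hA2.trans ?_
      have : (Y : ℝ) * 1 ≤ Y * Real.sqrt Y := by gcongr
      rw [mul_one] at this
      exact mul_le_mul_of_nonneg_left this hρ0.le
    have f3 : K₂ * (Y * Real.sqrt Y) = (K₁ * Y) * (2 * (Real.sqrt ρ * Real.sqrt Y))
        + ρ * (Y * Real.sqrt Y) := by rw [hK₂]; ring
    linarith
  have hfin : K₂ * (Y * Real.sqrt Y) ≤ t * κ ^ 2 / 32 * (Y : ℝ) ^ 2 := by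
    have f1 : 32 * K₂ ≤ Real.sqrt Y * (t * κ ^ 2) := by
      rwa [div_le_iff₀ (by positivity)] at g5
    have f2 : Real.sqrt Y * Real.sqrt Y = Y := Real.mul_self_sqrt hY0.le
    have f3 : 32 * K₂ * (Y * Real.sqrt Y) ≤ Real.sqrt Y * (t * κ ^ 2) * (Y * Real.sqrt Y) := by
      gcongr
    have f4 : Real.sqrt Y * (t * κ ^ 2) * (Y * Real.sqrt Y) = t * κ ^ 2 * (Y : ℝ) ^ 2 := by
      calc Real.sqrt Y * (t * κ ^ 2) * (Y * Real.sqrt Y)
          = (Real.sqrt Y * Real.sqrt Y) * (t * κ ^ 2) * Y := by ring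
        _ = t * κ ^ 2 * (Y : ℝ) ^ 2 := by rw [f2]; ring
    linarith
  linarith

end Low

open Low

theorem specLow : SpecLow := by
  intro α β hα hαβ
  have hβ : 0 < β := hα.trans hαβ
  set t : ℝ := 2 / (α + β) with ht
  have ht0 : 0 < t := by positivity
  have htβ : 1 < t * β := by
    rw [ht, div_mul_eq_mul_div, lt_div_iff₀ (by positivity)]; linarith
  have hαt : 1 < 1 / (α * t) := by
    have h : α * (2 / (α + β)) < 1 := by
      rw [mul_div_assoc', div_lt_iff₀ (by positivity)]; linarith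
    rw [lt_div_iff₀ (by positivity), one_mul, ht]; exact h
  set ρ : ℝ := (1 + min (t * β) (1 / (α * t))) / 2 with hρ
  have hmin : 1 < min (t * β) (1 / (α * t)) := lt_min htβ hαt
  have hρ1 : 1 < ρ := by rw [hρ]; linarith
  have hρm : ρ < min (t * β) (1 / (α * t)) := by rw [hρ]; linarith
  have h1 : ρ < t * β := hρm.trans_le (min_le_left _ _)
  have h2 : α * t * ρ < 1 := by
    have : ρ < 1 / (α * t) := hρm.trans_le (min_le_right _ _)
    rw [lt_div_iff₀ (by positivity)] at this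
    linarith [mul_comm (α * t) ρ]
  set κ : ℝ := ρ - 1 with hκ
  have hκ0 : 0 < κ := by rw [hκ]; linarith
  set M₀ : ℝ := 2 * t * ρ ^ 2 with hM₀
  have hM₀0 : 0 < M₀ := by positivity
  set K₁ : ℝ := κ + t * κ + 1 with hK₁
  have hK₁0 : 0 < K₁ := by positivity
  set K₂ : ℝ := 2 * K₁ * Real.sqrt ρ + ρ with hK₂
  have hK₂0 : 0 < K₂ := by positivity
  -- a bound for the size of `Y`
  obtain ⟨Y₀, hY₀⟩ : ∃ Y₀ : ℕ, ∀ Y : ℕ, Y₀ ≤ Y → 1 ≤ Y ∧ 2 ≤ κ * Y ∧ 2 ≤ t * κ * Y ∧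
      α < (1 - α * t * ρ) * (Y : ℝ) ^ 2 ∧ 32 * K₂ / (t * κ ^ 2) ≤ Real.sqrt Y := by
    have hlim : Tendsto (fun Y : ℕ => (Y : ℝ)) atTop atTop := tendsto_natCast_atTop_atTop
    have e1 : ∀ᶠ Y : ℕ in atTop, 1 ≤ Y := eventually_ge_atTop 1
    have e2 : ∀ᶠ Y : ℕ in atTop, 2 ≤ κ * Y :=
      (hlim.const_mul_atTop hκ0).eventually_ge_atTop 2
    have e3 : ∀ᶠ Y : ℕ in atTop, 2 ≤ t * κ * Y :=
      (hlim.const_mul_atTop (by positivity : 0 < t * κ)).eventually_ge_atTop 2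
    have e4 : ∀ᶠ Y : ℕ in atTop, α < (1 - α * t * ρ) * (Y : ℝ) ^ 2 := by
      have : Tendsto (fun Y : ℕ => (1 - α * t * ρ) * (Y : ℝ) ^ 2) atTop atTop :=
        (((tendsto_pow_atTop (two_ne_zero)).comp hlim).const_mul_atTop (by linarith))
      exact this.eventually_gt_atTop α
    have e5 : ∀ᶠ Y : ℕ in atTop, 32 * K₂ / (t * κ ^ 2) ≤ Real.sqrt Y :=
      (Real.tendsto_sqrt_atTop.comp hlim).eventually_ge_atTop _
    obtain ⟨Y₀, h⟩ := eventually_atTop.mp (e1.and (e2.and (e3.and (e4.and e5))))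
    exact ⟨Y₀, h⟩
  -- number of coprime pairs
  have count : ∀ Y : ℕ, Y₀ ≤ Y → t * κ ^ 2 / 32 * (Y : ℝ) ^ 2 ≤
      (((Ioc Y ⌊ρ * Y⌋₊ ×ˢ Ioc ⌊t * Y⌋₊ ⌊t * ρ * Y⌋₊).filter
        (fun x => Nat.Coprime x.1 x.2)).card : ℝ) := by
    intro Y hY
    obtain ⟨g1, g2, g3, g4, g5⟩ := hY₀ Y hY
    exact count_le ht0 hρ1 hκ hK₁ hK₂ g1 g2 g3 g5
  refine ⟨t * κ ^ 2 / 32 / (4 * M₀), by positivity, ?_⟩
  filter_upwards [(tendsto_natCast_atTop_atTop (R := ℝ)).eventually_ge_atTop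
    (M₀ * ((Y₀ : ℝ) ^ 2))] with N hN
  set m : ℕ := ⌊(N : ℝ) / M₀⌋₊ with hm
  set Y : ℕ := Nat.sqrt m with hY
  have hYY₀ : Y₀ ≤ Y := by
    rw [hY, Nat.le_sqrt']
    apply Nat.le_floor
    rw [le_div_iff₀ hM₀0]
    push_cast; linarith [mul_comm M₀ ((Y₀ : ℝ) ^ 2)]
  obtain ⟨g1, g2, g3, g4, g5⟩ := hY₀ Y hYY₀
  have hYm : (Y : ℝ) ^ 2 ≤ N / M₀ := by
    have h3 : Y ^ 2 ≤ m := Nat.sqrt_le' m
    have h4 : (m : ℝ) ≤ N / M₀ := Nat.floor_le (by positivity)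
    have h5 : (Y : ℝ) ^ 2 ≤ m := by exact_mod_cast h3
    linarith
  have hYN : M₀ * (Y : ℝ) ^ 2 ≤ N := by
    rw [le_div_iff₀ hM₀0] at hYm; linarith
  have hNY : (N : ℝ) ≤ 4 * M₀ * (Y : ℝ) ^ 2 := by
    have h3 : m < (Y + 1) ^ 2 := Nat.lt_succ_sqrt' m
    have h4 : (N : ℝ) / M₀ < m + 1 := Nat.lt_floor_add_one _
    have h5 : (m : ℝ) + 1 ≤ ((Y : ℝ) + 1) ^ 2 := by exact_mod_cast h3
    have h6 : (1 : ℝ) ≤ Y := by exact_mod_cast g1
    have h7 : ((Y : ℝ) + 1) ^ 2 ≤ 4 * (Y : ℝ) ^ 2 := by nlinarith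
    have h8 : (N : ℝ) / M₀ ≤ 4 * (Y : ℝ) ^ 2 := by linarith
    rw [div_le_iff₀ hM₀0] at h8
    linarith
  have hcard : ((Ioc Y ⌊ρ * (Y : ℝ)⌋₊ ×ˢ Ioc ⌊t * (Y : ℝ)⌋₊ ⌊t * ρ * (Y : ℝ)⌋₊).filter
        (fun x => Nat.Coprime x.1 x.2)).card ≤ ((Icc 1 N).sigma (dw α β)).card := by
    refine card_le_card_of_injOn nD ?_ ?_
    · intro x hx
      rw [mem_coe, mem_filter, mem_product, mem_Ioc, mem_Ioc] at hx
      obtain ⟨⟨⟨hx1, hx2⟩, hx3, hx4⟩, hx5⟩ := hx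
      have hYr : (1 : ℝ) ≤ Y := by exact_mod_cast g1
      refine nD_mem hα ht0 hρ1 h1 h2 g1 g4 (by rw [← hM₀]; exact hYN) hx1 ?_ ?_ ?_ hx5
      · exact (Nat.cast_le.mpr hx2).trans (Nat.floor_le (by positivity))
      · exact (Nat.floor_lt (by positivity)).mp hx3
      · exact (Nat.cast_le.mpr hx4).trans (Nat.floor_le (by positivity))
    · intro x hx y hy hxy
      rw [mem_coe, mem_filter, mem_product, mem_Ioc, mem_Ioc] at hx hy
      exact nD_inj (by omega) (by omega) hx.2 hy.2 hxy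
  have hc := count Y hYY₀
  rw [card_sigma] at hcard
  have hcard' : (((Ioc Y ⌊ρ * (Y : ℝ)⌋₊ ×ˢ Ioc ⌊t * (Y : ℝ)⌋₊ ⌊t * ρ * (Y : ℝ)⌋₊).filter
        (fun x => Nat.Coprime x.1 x.2)).card : ℝ) ≤ ∑ n ∈ Icc 1 N, ((dw α β n).card : ℝ) := by
    exact_mod_cast hcard
  refine le_trans ?_ (hc.trans hcard')
  rw [div_mul_eq_mul_div, div_le_iff₀ (by positivity)]
  calc t * κ ^ 2 / 32 * (N : ℝ) ≤ t * κ ^ 2 / 32 * (4 * M₀ * (Y : ℝ) ^ 2) := by gcongr
    _ = t * κ ^ 2 / 32 * (Y : ℝ) ^ 2 * (4 * M₀) := by ring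

end Pool.Agent.Lib.MP391708.Eqd
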