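import Pool.Agent.Lib.MP_391708_nt.Eqd.Spec

/-!
# Module PRIME: prime sums twisted by `p^(it)` in residue classes
-/

set_option autoImplicit false

namespace Pool.Agent.Lib.MP391708.Eqd

open Finset Filter Topology LSeries

namespace PrimeMod

/-- indicator of the primes in a residue class -/
noncomputable def fP (q a : ℕ) (n : ℕ) : ℂ := if n.Prime ∧ n ≡ a [MOD q] then 1 else 0

lemma norm_fP_le (q a n : ℕ) : ‖fP q a n‖ ≤ 1 := by
  unfold fP; split_ifs <;> simp

lemma abscissa_fP (q a : ℕ) : LSeries.abscissaOfAbsConv (fP q a) ≤ 1 :=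
  LSeries.abscissaOfAbsConv_le_of_le_const ⟨1, fun n _ => norm_fP_le q a n⟩

/-- the non-prime part of the von Mangoldt function in a residue class -/
noncomputable def npart (q a : ℕ) (n : ℕ) : ℝ :=
  if n.Prime then 0 else ArithmeticFunction.vonMangoldt.residueClass (a : ZMod q) n

lemma npart_nonneg (q a n : ℕ) : 0 ≤ npart q a n := by
  unfold npart
  split_ifs
  · exact le_rfl
  · exact ArithmeticFunction.vonMangoldt.residueClass_nonneg _ n

lemma summable_npart (q a : ℕ) : Summable (fun n : ℕ => npart q a n / n) :=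
  ArithmeticFunction.vonMangoldt.summable_residueClass_non_primes_div (a : ZMod q)

lemma norm_term_npart_le (q a : ℕ) {s : ℂ} (hs : 1 ≤ s.re) (n : ℕ) :
    ‖LSeries.term (fun n => (npart q a n : ℂ)) s n‖ ≤ npart q a n / n := by
  rcases Nat.eq_zero_or_pos n with rfl | hn
  · simp
  · rw [LSeries.term_of_ne_zero hn.ne', norm_div, Complex.norm_natCast_cpow_of_pos hn,
      Complex.norm_real, Real.norm_of_nonneg (npart_nonneg q a n)]
    have h1 : (1 : ℝ) ≤ n := by exact_mod_cast hn
    refine div_le_div_of_nonneg_left (npart_nonneg q a n) (by positivity) ?_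
    calc (n : ℝ) = (n : ℝ) ^ (1 : ℝ) := (Real.rpow_one _).symm
      _ ≤ (n : ℝ) ^ s.re := Real.rpow_le_rpow_of_exponent_le h1 hs

lemma summable_term_npart (q a : ℕ) {s : ℂ} (hs : 1 ≤ s.re) :
    LSeriesSummable (fun n => (npart q a n : ℂ)) s :=
  Summable.of_norm_bounded (summable_npart q a) (fun n => norm_term_npart_le q a hs n)

lemma norm_LSeries_npart_le (q a : ℕ) {s : ℂ} (hs : 1 ≤ s.re) :
    ‖LSeries (fun n => (npart q a n : ℂ)) s‖ ≤ ∑' n : ℕ, npart q a n / n :=
  tsum_of_norm_bounded (summable_npart q a).hasSum (fun n => norm_term_npart_le q a hs n)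

lemma residueClass_eq_add (q a n : ℕ) :
    (ArithmeticFunction.vonMangoldt.residueClass (a : ZMod q) n : ℂ)
      = LSeries.logMul (fP q a) n + (npart q a n : ℂ) := by
  unfold LSeries.logMul fP npart ArithmeticFunction.vonMangoldt.residueClass
  by_cases hp : n.Prime
  · by_cases ha : n ≡ a [MOD q]
    · have ha' : (n : ZMod q) = a := (ZMod.natCast_eq_natCast_iff _ _ _).2 ha
      simp [hp, ha, ha', Set.indicator, ArithmeticFunction.vonMangoldt_apply_prime hp,
        Complex.natCast_log]
    · have ha' : ¬ (n : ZMod q) = a := fun h => ha ((ZMod.natCast_eq_natCast_iff _ _ _).1 h)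
      simp [hp, ha, ha', Set.indicator]
  · simp [hp]

/-- the point `1 + u - it` -/
noncomputable def pt (u t : ℝ) : ℂ := ⟨1 + u, -t⟩

lemma pt_re (u t : ℝ) : (pt u t).re = 1 + u := rfl
lemma pt_im (u t : ℝ) : (pt u t).im = -t := rfl

lemma pt_sub_one (u t : ℝ) : pt u t - 1 = ⟨u, -t⟩ := by
  apply Complex.ext <;> simp [pt]

/-- the main estimate for the logarithmic derivative -/
lemma G_bound (q : ℕ) (hq : 0 < q) (a : ℕ) (ha : a.Coprime q) (T : ℝ) :
    ∃ K : ℝ, 0 ≤ K ∧ ∀ u t : ℝ, 0 < u → u ≤ 1 → |t| ≤ T →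
      ‖LSeries (LSeries.logMul (fP q a)) (pt u t) - (q.totient : ℂ)⁻¹ / (pt u t - 1)‖ ≤ K := by
  have : NeZero q := ⟨hq.ne'⟩
  have hau : IsUnit (a : ZMod q) := (ZMod.isUnit_iff_coprime a q).2 ha
  set F := ArithmeticFunction.vonMangoldt.LFunctionResidueClassAux (a : ZMod q) with hF
  have hcont := ArithmeticFunction.vonMangoldt.continuousOn_LFunctionResidueClassAux (a : ZMod q)
  have hc2 : ContinuousOn (fun z : ℝ × ℝ => F (pt z.1 z.2)) (Set.Icc 0 1 ×ˢ Set.Icc (-T) T) := by
    refine ContinuousOn.comp (g := F) (f := fun z : ℝ × ℝ => pt z.1 z.2)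
      (t := {s : ℂ | 1 ≤ s.re}) hcont ?_ ?_
    · apply Continuous.continuousOn
      have : (fun z : ℝ × ℝ => pt z.1 z.2)
          = fun z : ℝ × ℝ => ((1 + z.1 : ℝ) : ℂ) + ((-z.2 : ℝ) : ℂ) * Complex.I := by
        funext z
        apply Complex.ext <;> simp [pt]
      rw [this]
      fun_prop
    · rintro ⟨u, t⟩ ⟨hu, _⟩
      change 1 ≤ (pt u t).re
      rw [pt_re]
      linarith [hu.1]
  obtain ⟨K1, hK1⟩ := (isCompact_Icc.prod isCompact_Icc).exists_bound_of_continuousOn hc2
  refine ⟨max K1 0 + ∑' n : ℕ, npart q a n / n, ?_, ?_⟩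
  · have : 0 ≤ ∑' n : ℕ, npart q a n / n :=
      tsum_nonneg (fun n => div_nonneg (npart_nonneg q a n) (Nat.cast_nonneg n))
    positivity
  · intro u t hu0 hu1 ht
    have hs : 1 < (pt u t).re := by rw [pt_re]; linarith
    have h1 := ArithmeticFunction.vonMangoldt.eqOn_LFunctionResidueClassAux hau hs
    simp only at h1
    have h2 : LSeries (fun n => (ArithmeticFunction.vonMangoldt.residueClass (a : ZMod q) n : ℂ))
        (pt u t) = LSeries (LSeries.logMul (fP q a)) (pt u t)
          + LSeries (fun n => (npart q a n : ℂ)) (pt u t) := by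
      rw [← LSeries_add]
      · refine LSeries_congr (fun {n} _ => ?_) _
        simpa using residueClass_eq_add q a n
      · refine LSeriesSummable_logMul_of_lt_re ?_
        refine lt_of_le_of_lt (abscissa_fP q a) ?_
        exact_mod_cast hs
      · exact summable_term_npart q a hs.le
    have h3 : LSeries (LSeries.logMul (fP q a)) (pt u t) - (q.totient : ℂ)⁻¹ / (pt u t - 1)
        = F (pt u t) - LSeries (fun n => (npart q a n : ℂ)) (pt u t) := by
      rw [hF, h1]
      change _ = (LSeries (fun n => (ArithmeticFunction.vonMangoldt.residueClass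
        (a : ZMod q) n : ℂ)) (pt u t) - _) - _
      rw [h2]
      ring
    rw [h3]
    refine (norm_sub_le _ _).trans (add_le_add ?_ (norm_LSeries_npart_le q a hs.le))
    refine le_trans ?_ (le_max_left _ _)
    exact hK1 (u, t) ⟨⟨hu0.le, hu1⟩, abs_le.1 ht⟩

lemma hasDerivAt_pt (u t : ℝ) : HasDerivAt (fun u : ℝ => pt u t) 1 u := by
  have h : (fun u : ℝ => pt u t) = fun u : ℝ => (u : ℂ) + (⟨1, -t⟩ : ℂ) := by
    funext v
    apply Complex.ext <;> simp [pt, add_comm]
  rw [h]
  exact (Complex.ofRealCLM.hasDerivAt (x := u)).add_const _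

/-- the estimate for the Dirichlet series over the primes -/
lemma D_bound (q : ℕ) (hq : 0 < q) (a : ℕ) (ha : a.Coprime q) (T : ℝ) :
    ∃ K : ℝ, 0 ≤ K ∧ ∀ u t : ℝ, 0 < u → u ≤ 1 → |t| ≤ T →
      ‖LSeries (fP q a) (pt u t)
        - ((-(1 / (q.totient : ℝ)) * Real.log (u + |t|) : ℝ) : ℂ)‖ ≤ K := by
  obtain ⟨K, hK0, hK⟩ := G_bound q hq a ha T
  have hφ : (0 : ℝ) < q.totient := by exact_mod_cast Nat.totient_pos.2 hq
  have hφ1 : 1 / (q.totient : ℝ) ≤ 1 := by
    rw [div_le_one hφ]
    exact_mod_cast Nat.totient_pos.2 hq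
  have hφ0 : 0 ≤ 1 / (q.totient : ℝ) := by positivity
  -- the value at `u = 1`
  set D1 : ℝ := ∑' n : ℕ, 1 / (n : ℝ) ^ 2 with hD1
  have hsum2 : Summable (fun n : ℕ => 1 / (n : ℝ) ^ 2) := by
    exact Real.summable_one_div_nat_pow.2 (by norm_num)
  have hone : ∀ t : ℝ, ‖LSeries (fP q a) (pt 1 t)‖ ≤ D1 := by
    intro t
    refine tsum_of_norm_bounded hsum2.hasSum (fun n => ?_)
    rcases Nat.eq_zero_or_pos n with rfl | hn
    · simp
    · rw [LSeries.term_of_ne_zero hn.ne', norm_div, Complex.norm_natCast_cpow_of_pos hn, pt_re]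
      have h2 : (n : ℝ) ^ ((1 : ℝ) + 1) = (n : ℝ) ^ 2 := by
        rw [show (1 : ℝ) + 1 = ((2 : ℕ) : ℝ) by norm_num, Real.rpow_natCast]
      rw [h2]
      exact div_le_div_of_nonneg_right (norm_fP_le q a n) (by positivity)
  set L : ℝ → ℝ → ℂ := fun t u => LSeries (fP q a) (pt u t)
    + (q.totient : ℂ)⁻¹ * Complex.log (pt u t - 1) with hL
  have hder : ∀ t u : ℝ, 0 < u → HasDerivAt (L t)
      (-LSeries (LSeries.logMul (fP q a)) (pt u t) + (q.totient : ℂ)⁻¹ / (pt u t - 1)) u := by
    intro t u hu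
    have h1 : LSeries.abscissaOfAbsConv (fP q a) < (pt u t).re := by
      refine lt_of_le_of_lt (abscissa_fP q a) ?_
      rw [pt_re]
      have : (1 : ℝ) < 1 + u := by linarith
      exact_mod_cast this
    have h2 := (LSeries_hasDerivAt h1).comp u (hasDerivAt_pt u t)
    have h3 : HasDerivAt (fun u : ℝ => Complex.log (pt u t - 1)) (1 / (pt u t - 1)) u := by
      have h4 := (hasDerivAt_pt u t).sub_const 1
      have h5 : (pt u t - 1) ∈ Complex.slitPlane := by
        rw [Complex.mem_slitPlane_iff]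
        left
        rw [pt_sub_one]
        exact hu
      have := h4.clog_real h5
      exact this
    have h4 := h2.add (h3.const_mul (q.totient : ℂ)⁻¹)
    convert! h4 using 1
    ring
  have hmv : ∀ t u : ℝ, 0 < u → u ≤ 1 → |t| ≤ T → ‖L t 1 - L t u‖ ≤ K := by
    intro t u hu hu1 ht
    have h := norm_image_sub_le_of_norm_deriv_le_segment' (a := u) (b := 1) (f := L t) (C := K)
      (f' := fun u => -LSeries (LSeries.logMul (fP q a)) (pt u t)
        + (q.totient : ℂ)⁻¹ / (pt u t - 1))
      (fun x hx => (hder t x (lt_of_lt_of_le hu hx.1)).hasDerivWithinAt)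
      (fun x hx => by
        have := hK x t (lt_of_lt_of_le hu hx.1) hx.2.le ht
        rw [← norm_neg]
        convert! this using 2
        ring) 1 ⟨hu1, le_rfl⟩
    refine h.trans ?_
    nlinarith
  have hlog : ∀ z : ℂ, 0 < z.re → ‖Complex.log z - (Real.log (z.re + |z.im|) : ℂ)‖
      ≤ Real.pi + Real.log 2 := by
    intro z hz
    have hz0 : z ≠ 0 := by
      intro h
      rw [h] at hz
      simp at hz
    have hn : 0 < ‖z‖ := norm_pos_iff.2 hz0
    have h1 : Complex.log z - (Real.log (z.re + |z.im|) : ℂ)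
        = ((Real.log ‖z‖ - Real.log (z.re + |z.im|) : ℝ) : ℂ) + (z.arg : ℂ) * Complex.I := by
      rw [Complex.log]
      push_cast
      ring
    rw [h1]
    have h2 : ‖(z.arg : ℂ) * Complex.I‖ ≤ Real.pi := by
      rw [norm_mul, Complex.norm_I, mul_one, Complex.norm_real, Real.norm_eq_abs]
      exact Complex.abs_arg_le_pi z
    have h3 : |Real.log ‖z‖ - Real.log (z.re + |z.im|)| ≤ Real.log 2 := by
      have hA : z.re + |z.im| ≤ 2 * ‖z‖ := by
        have := Complex.abs_re_le_norm z
        have := Complex.abs_im_le_norm z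
        have := le_abs_self z.re
        linarith
      have hB : ‖z‖ ≤ z.re + |z.im| := by
        have := Complex.norm_le_abs_re_add_abs_im z
        rwa [abs_of_pos hz] at this
      have hpos : 0 < z.re + |z.im| := by positivity
      have hA' := Real.log_le_log hpos hA
      rw [Real.log_mul (by norm_num) hn.ne'] at hA'
      have hB' := Real.log_le_log hn hB
      rw [abs_le]
      constructor
      · linarith
      · have := Real.log_nonneg (show (1 : ℝ) ≤ 2 by norm_num)
        linarith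
    refine (norm_add_le _ _).trans ?_
    rw [Complex.norm_real, Real.norm_eq_abs]
    linarith
  refine ⟨K + (D1 + (Real.log (1 + |T|) + (Real.pi + Real.log 2))) + (Real.pi + Real.log 2),
    ?_, ?_⟩
  · have h1 : 0 ≤ D1 := tsum_nonneg (fun n => by positivity)
    have h2 : 0 ≤ Real.log (1 + |T|) := Real.log_nonneg (by linarith [abs_nonneg T])
    have h3 : 0 ≤ Real.log 2 := Real.log_nonneg (by norm_num)
    have h4 := Real.pi_pos
    positivity
  · intro u t hu hu1 ht
    have hA := hlog (pt u t - 1) (by rw [pt_sub_one]; exact hu)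
    have hB := hlog (pt 1 t - 1) (by rw [pt_sub_one]; norm_num)
    rw [pt_sub_one] at hA hB
    simp only [abs_neg] at hA hB
    have hC := hmv t u hu hu1 ht
    have hD := hone t
    have hE : ‖(q.totient : ℂ)⁻¹‖ ≤ 1 := by
      rw [norm_inv, Complex.norm_natCast, ← one_div]
      exact hφ1
    have hF : ‖(q.totient : ℂ)⁻¹ * Complex.log (pt 1 t - 1)‖
        ≤ Real.log (1 + |T|) + (Real.pi + Real.log 2) := by
      rw [norm_mul]
      have h1 : ‖Complex.log (pt 1 t - 1)‖ ≤ Real.log (1 + |T|) + (Real.pi + Real.log 2) := by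
        rw [pt_sub_one]
        have h2 : ‖(Real.log (1 + |t|) : ℂ)‖ ≤ Real.log (1 + |T|) := by
          rw [Complex.norm_real, Real.norm_eq_abs,
            abs_of_nonneg (Real.log_nonneg (by linarith [abs_nonneg t]))]
          refine Real.log_le_log (by positivity) ?_
          have := le_abs_self T
          linarith
        calc ‖Complex.log ⟨1, -t⟩‖
            = ‖(Real.log (1 + |t|) : ℂ) + (Complex.log ⟨1, -t⟩ - (Real.log (1 + |t|) : ℂ))‖ := by
              congr 1; ring
          _ ≤ _ := norm_add_le _ _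
          _ ≤ _ := add_le_add h2 hB
      calc _ ≤ 1 * ‖Complex.log (pt 1 t - 1)‖ :=
            mul_le_mul_of_nonneg_right hE (norm_nonneg _)
        _ = ‖Complex.log (pt 1 t - 1)‖ := one_mul _
        _ ≤ _ := h1
    have hG : ‖(q.totient : ℂ)⁻¹ * (Complex.log ⟨u, -t⟩ - (Real.log (u + |t|) : ℂ))‖
        ≤ Real.pi + Real.log 2 := by
      rw [norm_mul]
      calc _ ≤ 1 * ‖Complex.log ⟨u, -t⟩ - (Real.log (u + |t|) : ℂ)‖ :=
            mul_le_mul_of_nonneg_right hE (norm_nonneg _)
        _ = _ := one_mul _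
        _ ≤ _ := hA
    have hfin : LSeries (fP q a) (pt u t)
        - ((-(1 / (q.totient : ℝ)) * Real.log (u + |t|) : ℝ) : ℂ)
        = -(L t 1 - L t u) + (LSeries (fP q a) (pt 1 t)
            + (q.totient : ℂ)⁻¹ * Complex.log (pt 1 t - 1))
          - (q.totient : ℂ)⁻¹ * (Complex.log ⟨u, -t⟩ - (Real.log (u + |t|) : ℂ)) := by
      rw [hL]
      simp only [pt_sub_one]
      push_cast
      ring
    rw [hfin]
    refine (norm_sub_le _ _).trans (add_le_add ?_ hG)
    refine (norm_add_le _ _).trans (add_le_add ?_ ?_)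
    · rw [norm_neg]
      exact hC
    · exact (norm_add_le _ _).trans (add_le_add hD hF)

/-- the truncation -/
lemma trunc_bound (q : ℕ) (hq : 0 < q) (a : ℕ) (ha : a.Coprime q) :
    ∃ K : ℝ, ∀ y : ℕ, 3 ≤ y → ∀ t : ℝ,
      ‖LSeries (fP q a) (pt (1 / Real.log y) t)
        - ∑ p ∈ (Icc 1 y).filter (fun p => p.Prime ∧ p ≡ a [MOD q]),
          (p : ℂ) ^ (-1 + Complex.I * (t : ℂ))‖ ≤ K := by
  obtain ⟨K, hK0, hK⟩ := G_bound q hq a ha 0
  have hφ : (0 : ℝ) < q.totient := by exact_mod_cast Nat.totient_pos.2 hq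
  refine ⟨Real.exp 1 * (K + (q.totient : ℝ)⁻¹), fun y hy t => ?_⟩
  have hy3 : (3 : ℝ) ≤ y := by exact_mod_cast hy
  have hly : 1 < Real.log y := by
    rw [Real.lt_log_iff_exp_lt (by linarith)]
    linarith [Real.exp_one_lt_d9]
  set σ : ℝ := 1 / Real.log y with hσ
  have hσ0 : 0 < σ := by positivity
  have hσ1 : σ ≤ 1 := by
    rw [hσ, div_le_one (by linarith)]
    linarith
  -- the bound for the logarithmic derivative at `t = 0`
  have hG := hK σ 0 hσ0 hσ1 (by simp)
  have hpt0 : pt σ 0 = ((1 + σ : ℝ) : ℂ) := by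
    apply Complex.ext <;> simp [pt]
  have hGn : ‖LSeries (LSeries.logMul (fP q a)) (pt σ 0)‖ ≤ K + (q.totient : ℝ)⁻¹ / σ := by
    have h1 : ‖(q.totient : ℂ)⁻¹ / (pt σ 0 - 1)‖ = (q.totient : ℝ)⁻¹ / σ := by
      rw [hpt0]
      push_cast
      rw [add_sub_cancel_left, norm_div, norm_inv, Complex.norm_natCast, Complex.norm_real,
        Real.norm_of_nonneg hσ0.le]
    calc ‖LSeries (LSeries.logMul (fP q a)) (pt σ 0)‖
        = ‖(LSeries (LSeries.logMul (fP q a)) (pt σ 0) - (q.totient : ℂ)⁻¹ / (pt σ 0 - 1))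
          + (q.totient : ℂ)⁻¹ / (pt σ 0 - 1)‖ := by congr 1; ring
      _ ≤ _ := norm_add_le _ _
      _ ≤ _ := add_le_add hG h1.le
  -- real series
  set g : ℕ → ℝ := fun n => if n.Prime ∧ n ≡ a [MOD q] then
    Real.log n / (n : ℝ) ^ (1 + σ) else 0 with hg
  have hgterm : ∀ n, LSeries.term (LSeries.logMul (fP q a)) (pt σ 0) n = (g n : ℂ) := by
    intro n
    rcases Nat.eq_zero_or_pos n with rfl | hn
    · simp [hg]
    · rw [LSeries.term_of_ne_zero hn.ne', hpt0, hg]
      unfold LSeries.logMul fP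
      simp only
      split_ifs
      · push_cast
        rw [Complex.ofReal_cpow (by positivity)]
        simp
      · simp
  have hsummable : LSeriesSummable (LSeries.logMul (fP q a)) (pt σ 0) := by
    refine LSeriesSummable_logMul_of_lt_re ?_
    refine lt_of_le_of_lt (abscissa_fP q a) ?_
    rw [pt_re]
    have : (1 : ℝ) < 1 + σ := by linarith
    exact_mod_cast this
  have hgs : Summable g := by
    have h1 : Summable (fun n => (g n : ℂ)) := by
      refine hsummable.congr (fun n => ?_)
      exact hgterm n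
    exact_mod_cast h1
  have hgsum : LSeries (LSeries.logMul (fP q a)) (pt σ 0) = ((∑' n, g n : ℝ) : ℂ) := by
    rw [LSeries, Complex.ofReal_tsum]
    exact tsum_congr hgterm
  have hgb : ∑' n, g n ≤ K + (q.totient : ℝ)⁻¹ / σ := by
    rw [hgsum, Complex.norm_real, Real.norm_eq_abs] at hGn
    exact (le_abs_self _).trans hGn
  -- termwise comparison
  set S : Finset ℕ := (Icc 1 y).filter (fun p => p.Prime ∧ p ≡ a [MOD q]) with hS
  set c : ℕ → ℂ := fun n => if n ∈ S then (n : ℂ) ^ (-1 + Complex.I * (t : ℂ)) else 0 with hc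
  have hcs : HasSum c (∑ p ∈ S, (p : ℂ) ^ (-1 + Complex.I * (t : ℂ))) := by
    have h1 : ∑ p ∈ S, (p : ℂ) ^ (-1 + Complex.I * (t : ℂ)) = ∑ p ∈ S, c p := by
      refine Finset.sum_congr rfl (fun p hp => ?_)
      rw [hc]
      simp only [hp, if_true]
    rw [h1]
    refine hasSum_sum_of_ne_finset_zero (fun n hn => ?_)
    rw [hc]
    simp only [hn, if_false]
  have hLs : HasSum (LSeries.term (fP q a) (pt σ t)) (LSeries (fP q a) (pt σ t)) := by
    have : LSeriesSummable (fP q a) (pt σ t) := by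
      refine LSeriesSummable_of_abscissaOfAbsConv_lt_re ?_
      refine lt_of_le_of_lt (abscissa_fP q a) ?_
      rw [pt_re]
      have : (1 : ℝ) < 1 + σ := by linarith
      exact_mod_cast this
    exact this.hasSum
  have hsub := hLs.sub hcs
  have hbound : ∀ n, ‖LSeries.term (fP q a) (pt σ t) n - c n‖
      ≤ (Real.exp 1 * σ) * g n := by
    intro n
    by_cases hn : n.Prime ∧ n ≡ a [MOD q]
    · have hn0 : 0 < n := hn.1.pos
      have hn0' : (0 : ℝ) < n := by exact_mod_cast hn0
      have hn1 : (1 : ℝ) ≤ n := by exact_mod_cast hn0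
      have hln : 0 ≤ Real.log n := Real.log_nonneg hn1
      have hgn : g n = Real.log n / (n : ℝ) ^ (1 + σ) := by
        rw [hg]; simp only [hn, and_self, if_true]
      rw [LSeries.term_of_ne_zero hn0.ne']
      have hf : fP q a n = 1 := by unfold fP; simp only [hn, and_self, if_true]
      rw [hf, hgn]
      by_cases hny : n ≤ y
      · have hnS : n ∈ S := by
          rw [hS, mem_filter, mem_Icc]
          exact ⟨⟨hn0, hny⟩, hn⟩
        have hcn : c n = (n : ℂ) ^ (-1 + Complex.I * (t : ℂ)) := by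
          rw [hc]; simp only [hnS, if_true]
        rw [hcn]
        have hne : (n : ℂ) ≠ 0 := by exact_mod_cast hn0.ne'
        have h1 : 1 / (n : ℂ) ^ (pt σ t) = (n : ℂ) ^ (-1 + Complex.I * (t : ℂ))
            * (((n : ℝ) ^ (-σ) : ℝ) : ℂ) := by
          rw [Complex.ofReal_cpow hn0'.le, one_div, ← Complex.cpow_neg]
          push_cast
          rw [← Complex.cpow_add _ _ hne]
          congr 1
          apply Complex.ext <;> simp [pt]
          ring
        rw [h1]
        have h2 : (n : ℂ) ^ (-1 + Complex.I * (t : ℂ)) * (((n : ℝ) ^ (-σ) : ℝ) : ℂ)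
            - (n : ℂ) ^ (-1 + Complex.I * (t : ℂ))
            = (n : ℂ) ^ (-1 + Complex.I * (t : ℂ)) * (((n : ℝ) ^ (-σ) - 1 : ℝ) : ℂ) := by
          push_cast; ring
        rw [h2, norm_mul, Complex.norm_natCast_cpow_of_pos hn0, Complex.norm_real]
        have h3 : (-1 + Complex.I * (t : ℂ)).re = -1 := by simp
        rw [h3, Real.norm_eq_abs]
        have h4 : (n : ℝ) ^ (-σ) = Real.exp (-(σ * Real.log n)) := by
          rw [Real.rpow_def_of_pos hn0']
          congr 1; ring
        have h5 : |(n : ℝ) ^ (-σ) - 1| ≤ σ * Real.log n := by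
          rw [h4, abs_sub_comm, abs_of_nonneg]
          · have := Real.add_one_le_exp (-(σ * Real.log n))
            linarith
          · have : Real.exp (-(σ * Real.log n)) ≤ 1 := by
              rw [Real.exp_le_one_iff]
              have : 0 ≤ σ * Real.log n := by positivity
              linarith
            linarith
        have h6 : (n : ℝ) ^ (-1 : ℝ) ≤ Real.exp 1 / (n : ℝ) ^ (1 + σ) := by
          rw [le_div_iff₀ (by positivity), ← Real.rpow_add hn0',
            show (-1 : ℝ) + (1 + σ) = σ by ring, Real.rpow_def_of_pos hn0']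
          refine Real.exp_le_exp.2 ?_
          rw [hσ, mul_one_div, div_le_one (by linarith)]
          exact Real.log_le_log hn0' (by exact_mod_cast hny)
        calc (n : ℝ) ^ (-1 : ℝ) * |(n : ℝ) ^ (-σ) - 1|
            ≤ (Real.exp 1 / (n : ℝ) ^ (1 + σ)) * (σ * Real.log n) :=
              mul_le_mul h6 h5 (abs_nonneg _) (by positivity)
          _ = (Real.exp 1 * σ) * (Real.log n / (n : ℝ) ^ (1 + σ)) := by ring
      · have hnS : n ∉ S := by
          rw [hS, mem_filter, mem_Icc]
          exact fun h => hny h.1.2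
        have hcn : c n = 0 := by
          rw [hc]; simp only [hnS, if_false]
        rw [hcn, sub_zero, norm_div, norm_one, Complex.norm_natCast_cpow_of_pos hn0, pt_re]
        push Not at hny
        have h1 : 1 ≤ σ * Real.log n := by
          rw [hσ, one_div, inv_mul_eq_div, one_le_div (by linarith)]
          exact Real.log_le_log (by linarith) (by exact_mod_cast hny.le)
        have h2 : 1 ≤ Real.exp 1 := Real.one_le_exp (by norm_num)
        have h3 : 1 ≤ Real.exp 1 * (σ * Real.log n) := by nlinarith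
        calc 1 / (n : ℝ) ^ (1 + σ) ≤ (Real.exp 1 * (σ * Real.log n)) / (n : ℝ) ^ (1 + σ) :=
              div_le_div_of_nonneg_right h3 (by positivity)
          _ = _ := by ring
    · have h1 : LSeries.term (fP q a) (pt σ t) n = 0 := by
        rcases Nat.eq_zero_or_pos n with rfl | hn0
        · simp
        · rw [LSeries.term_of_ne_zero hn0.ne']
          unfold fP
          simp only [hn, if_false, zero_div]
      have h2 : c n = 0 := by
        have : n ∉ S := by
          rw [hS, mem_filter]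
          exact fun h => hn h.2
        rw [hc]; simp only [this, if_false]
      have h3 : g n = 0 := by rw [hg]; simp only [hn, if_false]
      rw [h1, h2, h3]
      simp
  rw [← hsub.tsum_eq]
  refine (tsum_of_norm_bounded (hgs.mul_left _).hasSum hbound).trans ?_
  rw [tsum_mul_left]
  calc (Real.exp 1 * σ) * ∑' n, g n ≤ (Real.exp 1 * σ) * (K + (q.totient : ℝ)⁻¹ / σ) :=
        mul_le_mul_of_nonneg_left hgb (by positivity)
    _ = Real.exp 1 * (σ * K + (q.totient : ℝ)⁻¹) := by field_simp
    _ ≤ Real.exp 1 * (K + (q.totient : ℝ)⁻¹) := by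
        refine mul_le_mul_of_nonneg_left ?_ (by positivity)
        nlinarith

end PrimeMod

open PrimeMod in
/-- module PRIME -/
theorem specPrime : SpecPrime := by
  intro q hq a ha T hT
  obtain ⟨K1, -, hK1⟩ := D_bound q hq a ha T
  obtain ⟨K2, hK2⟩ := trunc_bound q hq a ha
  refine ⟨K1 + K2, fun y hy t ht => ?_⟩
  have hy3 : (3 : ℝ) ≤ y := by exact_mod_cast hy
  have hly : 1 < Real.log y := by
    rw [Real.lt_log_iff_exp_lt (by linarith)]
    linarith [Real.exp_one_lt_d9]
  have h1 := hK1 (1 / Real.log y) t (by positivity) (by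
    rw [div_le_one (by linarith)]; linarith) ht
  have h2 := hK2 y hy t
  have h3 : (∑ p ∈ (Icc 1 y).filter (fun p => p.Prime ∧ p ≡ a [MOD q]),
      (p : ℂ) ^ (-1 + Complex.I * (t : ℂ)))
      - (((1 / (q.totient : ℝ)) * (-Real.log (1 / Real.log y + |t|)) : ℝ) : ℂ)
      = (LSeries (fP q a) (pt (1 / Real.log y) t)
        - ((-(1 / (q.totient : ℝ)) * Real.log (1 / Real.log y + |t|) : ℝ) : ℂ))
      - (LSeries (fP q a) (pt (1 / Real.log y) t)
        - ∑ p ∈ (Icc 1 y).filter (fun p => p.Prime ∧ p ≡ a [MOD q]),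
          (p : ℂ) ^ (-1 + Complex.I * (t : ℂ))) := by
    push_cast
    ring
  rw [h3]
  exact (norm_sub_le _ _).trans (add_le_add h1 h2)

end Pool.Agent.Lib.MP391708.Eqd
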