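import Pool.Agent.Lib.MP_391708_nt.Eqd.Defs

/-!
# Exact statements of the modules

A module proves `theorem specXxx ... : SpecXxx` in its own file, possibly from other `Spec`s.
-/

set_option autoImplicit false

namespace Pool.Agent.Lib.MP391708.Eqd

open Finset Filter Topology

/-- PRIME: prime sums twisted by `p^(it)` in residue classes, uniformly for bounded `t`. -/
def SpecPrime : Prop :=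
  ∀ (q : ℕ), 0 < q → ∀ a : ℕ, a.Coprime q → ∀ T : ℝ, 0 < T → ∃ C : ℝ,
    ∀ y : ℕ, 3 ≤ y → ∀ t : ℝ, |t| ≤ T →
      ‖(∑ p ∈ (Icc 1 y).filter (fun p => p.Prime ∧ p ≡ a [MOD q]),
          (p : ℂ) ^ (-1 + Complex.I * (t : ℂ)))
        - (((1 / (q.totient : ℝ)) * (-Real.log (1 / Real.log y + |t|)) : ℝ) : ℂ)‖ ≤ C

/-- AN: the analytic inequality. -/
def SpecAn : Prop :=
  ∀ (f : ℕ → ℂ) (P0 : ℕ) (T x C0 C1 : ℝ) (m : ℝ → ℂ),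
    0 < T → 0 ≤ x → x ≤ 1 → (∀ p, ‖f p‖ ≤ 1) → Continuous m → (∀ t, T < |t| → m t = 0) →
    (∀ u, ‖kerOf m u‖ ≤ C0 / (1 + u ^ 2)) →
    (∀ᶠ y : ℕ in atTop, |(∑ p ∈ PP P0 y, 2 / (p : ℝ)) - Real.log (Real.log y)| ≤ C1) →
    (∀ᶠ y : ℕ in atTop, ∀ t : ℝ, |t| ≤ T →
      (∑ p ∈ PP P0 y, 2 / (p : ℂ) * f p * (p : ℂ) ^ (Complex.I * (t : ℂ))).re
        ≤ x * max 0 (-Real.log (1 / Real.log y + |t|)) + C1) →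
    (x < 1 ∨ ∀ t, ‖m t‖ ≤ C1 * |t|) →
    Tendsto (fun y : ℕ => ∑ S ∈ (PP P0 y).powerset,
      Wt (PP P0 y) S * ∫ s : ℝ, ‖Psi f (kerOf m) S s‖) atTop (𝓝 0)

/-- TT: the analytic inequality for the functions that occur. -/
def SpecTT : Prop :=
  ∀ J : ℕ, 0 < J → ∀ η : ℂ, ‖η‖ = 1 → ∀ ξ : DirichletCharacter ℂ J,
    ∀ (T C0 C1 : ℝ) (m : ℝ → ℂ), 0 < T → Continuous m → (∀ t, T < |t| → m t = 0) →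
    (∀ u, ‖kerOf m u‖ ≤ C0 / (1 + u ^ 2)) → (η ≠ 1 ∨ ∀ t, ‖m t‖ ≤ C1 * |t|) → ∀ P0 : ℕ,
    Tendsto (fun y : ℕ => ∑ S ∈ (PP P0 y).powerset,
      Wt (PP P0 y) S * ∫ s : ℝ, ‖Psi (fun p => η * ξ p) (kerOf m) S s‖) atTop (𝓝 0)

/-- FIRST: first moment of the number of factorizations of given shape. -/
def SpecFirst : Prop :=
  ∀ J : ℕ, 0 < J → ∃ C : ℝ, 0 < C ∧ ∀ X : ℝ, 1 ≤ X → ∀ l : ℝ, ∀ M : ℕ,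
    (((pairs J M).filter (fun x => scal x ≤ X ∧ l ≤ shp x ∧ shp x ≤ l + 1)).card : ℝ) ≤ C * X

/-- BOX: upper bound for the number of pairs in a residue class and a box, of the right order
in all parameters. -/
def SpecBox : Prop :=
  ∀ J : ℕ, 0 < J → ∃ C : ℝ, 0 < C ∧ ∀ q : ℕ, 0 < q → ∀ a a' : V, ∀ r₁ r₂ r₁' r₂' : ℝ,
    0 < r₁ → r₁ ≤ r₂ → 0 < r₁' → r₁' ≤ r₂' → ∀ ε : ℝ, 0 < ε → ∀ᶠ X : ℝ in atTop, ∀ M : ℕ,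
      (((pairs J M).filter (fun x =>
          ((q : ℤ) ∣ x.1.1 - a.1 ∧ (q : ℤ) ∣ x.1.2 - a.2 ∧
            (q : ℤ) ∣ x.2.1 - a'.1 ∧ (q : ℤ) ∣ x.2.2 - a'.2) ∧
          (r₁ ^ 2 * X ≤ nsq x.1 ∧ (nsq x.1 : ℝ) ≤ r₂ ^ 2 * X) ∧
          (r₁' ^ 2 * X ≤ nsq x.2 ∧ (nsq x.2 : ℝ) ≤ r₂' ^ 2 * X))).card : ℝ)
        ≤ (C * (r₂ - r₁) * (r₂' - r₁') / (q : ℝ) ^ 3 + ε) * X

/-- residues modulo `q` of a pair -/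
def res (q : ℕ) (x : V × V) : (ZMod q × ZMod q) × (ZMod q × ZMod q) :=
  (((x.1.1 : ZMod q), (x.1.2 : ZMod q)), ((x.2.1 : ZMod q), (x.2.2 : ZMod q)))

/-- weight functions -/
def Weight (b₁ b₂ l : ℝ) (h : ℝ → ℝ → ℝ) : Prop :=
  0 < b₁ ∧ Continuous (fun z : ℝ × ℝ => h z.1 z.2) ∧
    ∀ b s, h b s ≠ 0 → b₁ ≤ b ∧ b ≤ b₂ ∧ |s| ≤ l

/-- EQ: the same with a set of residues and a continuous weight. -/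
def SpecEq : Prop :=
  ∀ J : ℕ, 0 < J → ∀ b₁ b₂ : ℝ, 0 < b₁ → b₁ < b₂ → ∃ C : ℝ, 0 < C ∧
    ∀ q : ℕ, 0 < q → ∀ R : Finset ((ZMod q × ZMod q) × (ZMod q × ZMod q)),
    ∀ (H : ℝ → ℝ → ℝ) (l : ℝ), Weight b₁ b₂ l H → (∀ b s, 0 ≤ H b s) →
    ∀ ε : ℝ, 0 < ε → ∀ᶠ X : ℝ in atTop, ∀ M : ℕ,
      ∑ x ∈ (pairs J M).filter (fun x => res q x ∈ R), H (scal x / X) (shp x)
        ≤ (C * (R.card : ℝ) / (q : ℝ) ^ 3 * (∫ b : ℝ, ∫ s : ℝ, H b s) + ε) * X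

/-- EQL: local conditions at a finite set of primes. -/
def SpecEql : Prop :=
  ∀ J : ℕ, 0 < J → ∀ b₁ b₂ : ℝ, 0 < b₁ → b₁ < b₂ → ∃ C : ℝ, 0 < C ∧
    ∀ P : Finset ℕ, (∀ p ∈ P, p.Prime ∧ p % 4 = 1 ∧ ¬ p ∣ J) → ∀ S ⊆ P,
    ∀ (H : ℝ → ℝ → ℝ) (l : ℝ), Weight b₁ b₂ l H → (∀ b s, 0 ≤ H b s) →
    ∀ ε : ℝ, 0 < ε → ∀ᶠ X : ℝ in atTop, ∀ M : ℕ,
      ∑ x ∈ (pairs J M).filter (fun x => ∀ p ∈ P, ¬ (p : ℤ) ∣ nsq x.1 ∧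
          ((p : ℤ) ∣ nsq x.2 ↔ p ∈ S)), H (scal x / X) (shp x)
        ≤ (C * Wt P S * (∫ b : ℝ, ∫ s : ℝ, H b s) + ε) * X

/-- SQ: pairs with `p² ∣ B² + J²`. -/
def SpecSq : Prop :=
  ∀ J : ℕ, 0 < J → ∀ b₁ b₂ : ℝ, 0 < b₁ → b₁ < b₂ → ∃ C : ℝ, 0 < C ∧
    ∀ p : ℕ, p.Prime → p % 4 = 1 → ¬ p ∣ J →
    ∀ (H : ℝ → ℝ → ℝ) (l : ℝ), Weight b₁ b₂ l H → (∀ b s, 0 ≤ H b s) →
    ∀ ε : ℝ, 0 < ε → ∀ᶠ X : ℝ in atTop, ∀ M : ℕ,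
      ∑ x ∈ (pairs J M).filter (fun x => (p : ℤ) ^ 2 ∣ nsq x.1 * nsq x.2),
          H (scal x / X) (shp x)
        ≤ (C / (p : ℝ) ^ 2 * (∫ b : ℝ, ∫ s : ℝ, H b s) + ε) * X

/-- ORB: moving primes between the two factors. -/
def SpecOrb : Prop :=
  ∀ J : ℕ, 0 < J → ∀ P : Finset ℕ, (∀ p ∈ P, p.Prime ∧ p % 4 = 1 ∧ ¬ p ∣ J) →
    ∀ B : ℕ, (∀ p ∈ P, ¬ p ^ 2 ∣ B ^ 2 + J ^ 2) → ∀ η : ℂ, ‖η‖ = 1 → ∀ ker : ℝ → ℂ,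
      ‖∑ x ∈ (fib J B).filter (cond J), η ^ Om (nsq x.1) * ker (-shp x)‖ ≤
        ∑ y ∈ (fib J B).filter (fun y => ∀ p ∈ P, ¬ (p : ℤ) ∣ nsq y.1),
          ∑ ξ : DirichletCharacter ℂ J,
            ‖Psi (fun p => η * ξ p) ker (P.filter (fun p => (p : ℤ) ∣ nsq y.2)) (shp y)‖

/-- KPK: the key proposition for band-limited kernels. -/
def SpecKpk : Prop :=
  ∀ J : ℕ, 0 < J → ∀ η : ℂ, ‖η‖ = 1 → ∀ b₁ b₂ : ℝ, 0 < b₁ → b₁ < b₂ →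
    ∀ (T C0 C1 : ℝ) (m : ℝ → ℂ), 0 < T → Continuous m → (∀ t, T < |t| → m t = 0) →
    (∀ u, ‖kerOf m u‖ ≤ C0 / (1 + u ^ 2)) → (η ≠ 1 ∨ ∀ t, ‖m t‖ ≤ C1 * |t|) →
    ∀ ε : ℝ, 0 < ε → ∀ᶠ X : ℝ in atTop, ∀ M : ℕ,
      ∑ B ∈ (Icc 1 M).filter (fun B : ℕ =>
          b₁ * X ≤ Real.sqrt ((B : ℝ) ^ 2 + (J : ℝ) ^ 2) ∧
            Real.sqrt ((B : ℝ) ^ 2 + (J : ℝ) ^ 2) ≤ b₂ * X),
        ‖∑ x ∈ (fib J B).filter (cond J), η ^ Om (nsq x.1) * kerOf m (-shp x)‖ ≤ ε * X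

/-- KP: the key proposition. -/
def SpecKP : Prop :=
  ∀ J : ℕ, 0 < J → ∀ η : ℂ, ‖η‖ = 1 → ∀ (h : ℝ → ℝ → ℝ) (b₁ b₂ l : ℝ), Weight b₁ b₂ l h →
    (η ≠ 1 ∨ ∀ b, ∫ s : ℝ, h b s = 0) →
    ∀ ε : ℝ, 0 < ε → ∀ᶠ X : ℝ in atTop, ∀ M : ℕ,
      ∑ B ∈ Icc 1 M, ‖∑ x ∈ (fib J B).filter (cond J),
        η ^ Om (nsq x.1) * (h (scal x / X) (shp x) : ℂ)‖ ≤ ε * X

/-- FAN: Cauchy-Schwarz over the fans. -/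
def SpecFan : Prop :=
  ∀ ζ : ℂ, ‖ζ‖ = 1 → ζ ^ 2 ≠ 1 → ∀ (ψ χ : ℝ → ℝ) (c₁ c₂ : ℝ), 0 < c₁ →
    Continuous ψ → Continuous χ → (∀ b, ψ b ≠ 0 → c₁ ≤ b ∧ b ≤ c₂) →
    (∀ b, χ b ≠ 0 → c₁ ≤ b ∧ b ≤ c₂) → (∀ b, 0 ≤ χ b) →
    ∃ C : ℝ, ∀ K : ℕ, 0 < K → ∀ᶠ X : ℝ in atTop, ∀ M : ℕ, c₂ * X ≤ M →
      ‖∑ n ∈ Icc 1 M, ∑ x ∈ fib 1 n, ζ ^ (Om (nsq x.1) + Om (nsq x.2)) *
          ((ψ (scal x / X) * χ (K * (nsq x.1 / X)) : ℝ) : ℂ)‖ ≤ C * X / Real.sqrt K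

/-- SMOOTH: the theorem with smooth weights. -/
def SpecSmooth : Prop :=
  ∀ ζ₁ ζ₂ : ℂ, ‖ζ₁‖ = 1 → ‖ζ₂‖ = 1 → ¬ (ζ₁ = ζ₂ ∧ ζ₁ ^ 2 = 1) →
    ∀ (h : ℝ → ℝ → ℝ) (b₁ b₂ l : ℝ), Weight b₁ b₂ l h →
    ∀ ε : ℝ, 0 < ε → ∀ᶠ X : ℝ in atTop, ∀ M : ℕ, b₂ * X ≤ M →
      ‖∑ n ∈ Icc 1 M, ∑ x ∈ fib 1 n, ζ₁ ^ Om (nsq x.1) * ζ₂ ^ Om (nsq x.2) *
          (h (scal x / X) (shp x) : ℂ)‖ ≤ ε * X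

/-- divisors of `n² + 1` in `(αn, βn]` -/
noncomputable def dw (α β : ℝ) (n : ℕ) : Finset ℕ :=
  (n ^ 2 + 1).divisors.filter (fun d => α * n < d ∧ (d : ℝ) ≤ β * n)

/-- DIV: factorizations of `n + i` and divisors of `n² + 1`. -/
def SpecDiv : Prop :=
  ∀ (n : ℕ) (F : ℕ → ℕ → ℂ),
    ∑ x ∈ fib 1 n, F (nsq x.1).toNat (nsq x.2).toNat =
      4 * ∑ d ∈ (n ^ 2 + 1).divisors, F d ((n ^ 2 + 1) / d)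

/-- SHARP: the theorem for divisors in `(αn, βn]`. -/
def SpecSharp : Prop :=
  ∀ ζ₁ ζ₂ : ℂ, ‖ζ₁‖ = 1 → ‖ζ₂‖ = 1 → ¬ (ζ₁ = ζ₂ ∧ ζ₁ ^ 2 = 1) →
    ∀ α β : ℝ, 0 < α → α < β →
    Tendsto (fun N : ℕ => (∑ n ∈ Icc 1 N, ∑ d ∈ dw α β n,
      ζ₁ ^ ArithmeticFunction.cardFactors d *
        ζ₂ ^ ArithmeticFunction.cardFactors ((n ^ 2 + 1) / d)) / (N : ℂ)) atTop (𝓝 0)

/-- LOW: the number of pairs `(n, d)` is at least a constant times `N`. -/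
def SpecLow : Prop :=
  ∀ α β : ℝ, 0 < α → α < β → ∃ c : ℝ, 0 < c ∧ ∀ᶠ N : ℕ in atTop,
    c * N ≤ ∑ n ∈ Icc 1 N, ((dw α β n).card : ℝ)

/-- number of pairs `(n, d)`, `n ≤ N`, `d ∣ n² + 1`, `αn < d ≤ βn` with `Ω(d) ≡ r` and
`Ω((n² + 1) / d) ≡ r'` modulo `m` -/
noncomputable def cnt (α β : ℝ) (m r r' N : ℕ) : ℝ :=
  ∑ n ∈ Icc 1 N, (((dw α β n).filter (fun d =>
    ArithmeticFunction.cardFactors d ≡ r [MOD m] ∧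
      ArithmeticFunction.cardFactors ((n ^ 2 + 1) / d) ≡ r' [MOD m])).card : ℝ)

/-- number of pairs `(n, d)`, `n ≤ N`, `d ∣ n² + 1`, `αn < d ≤ βn` -/
noncomputable def tot (α β : ℝ) (N : ℕ) : ℝ := ∑ n ∈ Icc 1 N, ((dw α β n).card : ℝ)

/-- the same with `Ω(n² + 1) ≡ r` modulo `2` -/
noncomputable def par (α β : ℝ) (r N : ℕ) : ℝ :=
  ∑ n ∈ (Icc 1 N).filter (fun n => ArithmeticFunction.cardFactors (n ^ 2 + 1) ≡ r [MOD 2]),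
    ((dw α β n).card : ℝ)

/-- COR: residue classes. -/
def SpecCor : Prop :=
  ∀ α β : ℝ, 0 < α → α < β → ∀ m : ℕ, 0 < m → ∀ r r' : ℕ,
    (Odd m → Tendsto (fun N => cnt α β m r r' N / tot α β N) atTop (𝓝 (1 / (m : ℝ) ^ 2))) ∧
    (Even m → Tendsto (fun N => cnt α β m r r' N / tot α β N
      - 2 / (m : ℝ) ^ 2 * (par α β (r + r') N / tot α β N)) atTop (𝓝 0))

end Pool.Agent.Lib.MP391708.Eqd
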